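import Pool.Agent.T9h42.DD.StmD

/-!
# Definitions for the statement in degree minus one for Dedekind domains
-/

namespace Pool.Agent.T9h42.KD

open MonoidAlgebra Pool.Agent.Y778.NK Pool.Agent.Y69.FJK Pool.Agent.T9h42
open Pool.Agent.Y69 (FinSub)

noncomputable section

section colim

variable {F : Type} [Field F] (S : Places F) (G : Type) [Group G]

variable {G} in
/-- The symbol `[H, x]` as an element of the free abelian group on the symbols, for `H` a finite
subgroup of `G` and `x ∈ KM(S, H)`. -/
def csym (H : FinSub G) (x : KM S H.1) : FreeAbelianGroup (Σ H : FinSub G, KM S H.1) :=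
  FreeAbelianGroup.of ⟨H, x⟩

/-- The relations of the colimit: `[H, x]` is additive in `x`, and `[K, φ(x)] = [H, x]` for the maps
`φ : H → K` given by conjugation with an element of `G`. -/
def CRel : Set (FreeAbelianGroup (Σ H : FinSub G, KM S H.1)) :=
  {w | (∃ (H : FinSub G) (x y : KM S H.1), w = csym S H (x + y) - (csym S H x + csym S H y)) ∨
    ∃ (H K : FinSub G) (g : G) (φ : H.1 →* K.1) (x : KM S H.1),
      (∀ h : H.1, (φ h : G) = g * h * g⁻¹) ∧ w = csym S K (KM.map S φ x) - csym S H x}

/-- `colim KM(S, H)` over the finite subgroups `H` of `G`. -/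
def KMColim : Type :=
  FreeAbelianGroup (Σ H : FinSub G, KM S H.1) ⧸ AddSubgroup.closure (CRel S G)

instance : AddCommGroup (KMColim S G) :=
  QuotientAddGroup.Quotient.addCommGroup (AddSubgroup.closure (CRel S G))

variable {S G} in
/-- The structure map `KM(S, H) → colim KM(S, -)` of a finite subgroup. -/
def KMColim.ι (H : FinSub G) (x : KM S H.1) : KMColim S G := QuotientAddGroup.mk (csym S H x)

end colim

end

end Pool.Agent.T9h42.KD
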