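import Pool.Agent.T9h42.DD.MainD
import Pool.Agent.T9h42.DD.StmC

/-!
# The assembly map in degree minus one
-/

set_option linter.unusedSectionVars false

namespace Pool.Agent.T9h42.KD

open MonoidAlgebra H970SH H842 Pool.Agent.Y69 Pool.Agent.Y69.StepC Pool.Agent.Y778.NK
  Pool.Agent.T9h42 Pool.Agent.T9h42.Q

noncomputable section

variable {F : Type} [Field F] (S : Places F)

section map

theorem Loc0.ext {H : Type} [Group H] {x y : Loc0 S H} (h : ∀ p, x.at p = y.at p) : x = y :=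
  DFinsupp.ext (β := L0 S H) h

theorem KM.map_comp {A B C : Type} [Group A] [Group B] [Group C] (φ : A →* B) (ψ : B →* C)
    (x : KM S A) : KM.map S ψ (KM.map S φ x) = KM.map S (ψ.comp φ) x := by
  obtain ⟨y, rfl⟩ := km0_surj x
  have h : Loc0.map S ψ (Loc0.map S φ y) = Loc0.map S (ψ.comp φ) y := by
    apply Loc0.ext
    intro i
    exact GK0.map_map φ ψ (y.at i)
  exact congrArg (km0 S C) h

end map

section colim

variable {S} {G : Type} [Group G]

theorem KMColim.mk_rel {w : FreeAbelianGroup (Σ H : FinSub G, KM S H.1)} (h : w ∈ CRel S G) :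
    (QuotientAddGroup.mk w : KMColim S G) = 0 :=
  (QuotientAddGroup.eq_zero_iff w).2 (AddSubgroup.subset_closure h)

theorem KMColim.ι_add (H : FinSub G) (x y : KM S H.1) :
    KMColim.ι H (x + y) = KMColim.ι H x + KMColim.ι H y :=
  sub_eq_zero.1 (KMColim.mk_rel (Or.inl ⟨H, x, y, rfl⟩))

theorem KMColim.ι_rel (H K : FinSub G) (g : G) (φ : H.1 →* K.1)
    (hφ : ∀ h : H.1, (φ h : G) = g * h * g⁻¹) (x : KM S H.1) :
    KMColim.ι K (KM.map S φ x) = KMColim.ι H x :=
  sub_eq_zero.1 (KMColim.mk_rel (Or.inr ⟨H, K, g, φ, x, hφ, rfl⟩))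

/-- additivity -/
def KMColim.hom (H : FinSub G) : KM S H.1 →+ KMColim S G where
  toFun := KMColim.ι H
  map_zero' := by
    have h := KMColim.ι_add H (0 : KM S H.1) 0
    rw [add_zero] at h
    exact left_eq_add.1 h
  map_add' := KMColim.ι_add H

/-- the map on the free abelian group -/
def KMColim.pre {B : Type*} [AddCommGroup B] (f : ∀ H : FinSub G, (KM S H.1 →+ B)) :
    FreeAbelianGroup (Σ H : FinSub G, KM S H.1) →+ B :=
  FreeAbelianGroup.lift fun s => f s.1 s.2

theorem KMColim.pre_sym {B : Type*} [AddCommGroup B] (f : ∀ H : FinSub G, (KM S H.1 →+ B))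
    (H : FinSub G) (x : KM S H.1) : KMColim.pre f (csym S H x) = f H x :=
  FreeAbelianGroup.lift_apply_of _ _

theorem KMColim.pre_aux {B : Type*} [AddCommGroup B] (f : ∀ H : FinSub G, (KM S H.1 →+ B))
    (hf : ∀ (H K : FinSub G) (g : G) (φ : H.1 →* K.1),
      (∀ h : H.1, (φ h : G) = g * h * g⁻¹) → ∀ x, f K (KM.map S φ x) = f H x) :
    AddSubgroup.closure (CRel S G) ≤ (KMColim.pre f).ker := by
  rw [AddSubgroup.closure_le]
  rintro w (⟨H, x, y, rfl⟩ | ⟨H, K, g, φ, x, hφ, rfl⟩)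
  · show KMColim.pre f _ = 0
    rw [map_sub, map_add, KMColim.pre_sym, KMColim.pre_sym, KMColim.pre_sym, sub_eq_zero, map_add]
  · show KMColim.pre f _ = 0
    rw [map_sub, KMColim.pre_sym, KMColim.pre_sym, sub_eq_zero]
    exact hf H K g φ hφ x

/-- the universal property -/
def KMColim.lift {B : Type*} [AddCommGroup B] (f : ∀ H : FinSub G, (KM S H.1 →+ B))
    (hf : ∀ (H K : FinSub G) (g : G) (φ : H.1 →* K.1),
      (∀ h : H.1, (φ h : G) = g * h * g⁻¹) → ∀ x, f K (KM.map S φ x) = f H x) :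
    KMColim S G →+ B :=
  QuotientAddGroup.lift (AddSubgroup.closure (CRel S G)) (KMColim.pre f) (KMColim.pre_aux f hf)

theorem KMColim.lift_ι {B : Type*} [AddCommGroup B] (f : ∀ H : FinSub G, (KM S H.1 →+ B))
    (hf : ∀ (H K : FinSub G) (g : G) (φ : H.1 →* K.1),
      (∀ h : H.1, (φ h : G) = g * h * g⁻¹) → ∀ x, f K (KM.map S φ x) = f H x)
    (H : FinSub G) (x : KM S H.1) : KMColim.lift f hf (KMColim.ι H x) = f H x := by
  show QuotientAddGroup.lift _ _ _ (QuotientAddGroup.mk _) = _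
  rw [QuotientAddGroup.lift_mk, KMColim.pre_sym]

theorem KMColim.induction {Q : KMColim S G → Prop} (h0 : Q 0)
    (hadd : ∀ x y, Q x → Q y → Q (x + y)) (hneg : ∀ x, Q x → Q (-x))
    (hι : ∀ (H : FinSub G) (x : KM S H.1), Q (KMColim.ι H x)) (w : KMColim S G) : Q w := by
  let q : FreeAbelianGroup (Σ H : FinSub G, KM S H.1) →+ KMColim S G :=
    QuotientAddGroup.mk' (AddSubgroup.closure (CRel S G))
  obtain ⟨y, rfl⟩ : ∃ y, q y = w := QuotientAddGroup.mk'_surjective _ w
  induction y using FreeAbelianGroup.induction_on with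
  | zero => rw [map_zero]; exact h0
  | of y => exact hι y.1 y.2
  | neg y h => rw [map_neg]; exact hneg _ h
  | add y z hy hz => rw [map_add]; exact hadd _ _ hy hz

end colim

section sy

variable {G : Type} [Group G]

/-- the homomorphism between images given by conjugation -/
def cjh {C D : Type} [Group C] [Group D] [Finite C] [Finite D]
    (φ : C →* G) (ψ : D →* G) (f : D →* C) (g : G) (h : ∀ x, φ (f x) = g * ψ x * g⁻¹) :
    (rg ψ).1 →* (rg φ).1 where
  toFun := fun y => ⟨g * (y : G) * g⁻¹, by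
    obtain ⟨_, x, rfl⟩ := y
    exact ⟨f x, h x⟩⟩
  map_one' := by
    apply Subtype.ext
    show g * (1 : G) * g⁻¹ = 1
    group
  map_mul' := fun y z => by
    apply Subtype.ext
    show g * ((y : G) * (z : G)) * g⁻¹ = (g * (y : G) * g⁻¹) * (g * (z : G) * g⁻¹)
    group

theorem cjh_comp {C D : Type} [Group C] [Group D] [Finite C] [Finite D]
    (φ : C →* G) (ψ : D →* G) (f : D →* C) (g : G) (h : ∀ x, φ (f x) = g * ψ x * g⁻¹) :
    (rrg φ).comp f = (cjh φ ψ f g h).comp (rrg ψ) := by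
  ext x
  exact h x

/-- the symbol of a homomorphism -/
def szM {C : Type} [Group C] [Finite C] (φ : C →* G) (z : G) (hz : ∀ c, z * φ c = φ c * z) :
    KM S C →+ ZM S G :=
  (ZM.hom (rg φ) ⟨z, rg_mem φ z hz⟩).comp (KM.map S (rrg φ))

theorem szM_apply {C : Type} [Group C] [Finite C] (φ : C →* G) (z : G)
    (hz : ∀ c, z * φ c = φ c * z) (u : KM S C) :
    szM S φ z hz u = ZM.of (rg φ) ⟨z, rg_mem φ z hz⟩ (KM.map S (rrg φ) u) := rfl

theorem szM_conj {C D : Type} [Group C] [Group D] [Finite C] [Finite D]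
    (φ : C →* G) (ψ : D →* G) (f : D →* C) (g : G) (h : ∀ x, φ (f x) = g * ψ x * g⁻¹)
    (z z' : G) (hz : ∀ c, z * φ c = φ c * z) (hz' : ∀ c, z' * ψ c = ψ c * z')
    (hzz : z = g * z' * g⁻¹) (u : KM S D) :
    szM S φ z hz (KM.map S f u) = szM S ψ z' hz' u := by
  rw [szM_apply, szM_apply, ← ZM.of_rel (rg ψ) (rg φ) g (cjh φ ψ f g h) ⟨z', rg_mem ψ z' hz'⟩
    ⟨z, rg_mem φ z hz⟩ (fun y => rfl) hzz, KM.map_comp, KM.map_comp, cjh_comp φ ψ f g h]

theorem bM_szM {C : Type} [Group C] [Finite C] (φ : C →* G) (z : G)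
    (hz : ∀ c, z * φ c = φ c * z) (u : KM S C) : bM S G (szM S φ z hz u) = nzM S φ z hz u := by
  rw [szM_apply, bM_of]
  exact nzM_conj S (rg φ).1.subtype φ (rrg φ) 1 (fun x => by
    rw [one_mul, inv_one, mul_one]; rfl) z z _ hz (by group) u

/-- the class of a homomorphism in the colimit -/
def szC {C : Type} [Group C] [Finite C] (φ : C →* G) : KM S C →+ KMColim S G :=
  (KMColim.hom (rg φ)).comp (KM.map S (rrg φ))

theorem szC_apply {C : Type} [Group C] [Finite C] (φ : C →* G) (u : KM S C) :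
    szC S φ u = KMColim.ι (rg φ) (KM.map S (rrg φ) u) := rfl

theorem szC_conj {C D : Type} [Group C] [Group D] [Finite C] [Finite D]
    (φ : C →* G) (ψ : D →* G) (f : D →* C) (g : G) (h : ∀ x, φ (f x) = g * ψ x * g⁻¹)
    (u : KM S D) : szC S φ (KM.map S f u) = szC S ψ u := by
  rw [szC_apply, szC_apply, ← KMColim.ι_rel (rg ψ) (rg φ) g (cjh φ ψ f g h) (fun y => rfl),
    KM.map_comp, KM.map_comp, cjh_comp φ ψ f g h]

theorem szC_sub (H : FinSub G) [Finite H.1] (u : KM S H.1) :
    szC S H.1.subtype u = KMColim.ι H u := by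
  rw [szC_apply]
  refine KMColim.ι_rel H (rg H.1.subtype) 1 (rrg H.1.subtype) ?_ u
  intro h
  show (h : G) = 1 * h * 1⁻¹
  group

end sy

section main

variable (G : Type) [Group G]

/-- the assembly map -/
def asm : KMColim S G →+ KM S G :=
  KMColim.lift (fun H => KM.map S H.1.subtype) (fun H K g φ hφ x => by
    rw [KM.map_comp]
    obtain ⟨y, rfl⟩ := km0_surj x
    have h : Loc0.map S (K.1.subtype.comp φ) y = Loc0.map S H.1.subtype y := by
      apply Loc0.ext
      intro i
      show GK0.map (K.1.subtype.comp φ) (y.at i) = GK0.map H.1.subtype (y.at i)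
      have h1 : K.1.subtype.comp φ = (MulAut.conj g).toMonoidHom.comp H.1.subtype := by
        ext h
        exact hφ h
      rw [h1, ← GK0.map_map]
      exact K0map_conj_group g _
    exact congrArg (km0 S G) h)

theorem asm_ι (H : FinSub G) (x : KM S H.1) :
    asm S G (KMColim.ι H x) = KM.map S H.1.subtype x := KMColim.lift_ι _ _ H x

abbrev GZ : Type := G × Multiplicative ℤ

variable {G}

/-- the inclusion -/
abbrev inG : G →* G × Multiplicative ℤ := MonoidHom.inl G (Multiplicative ℤ)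

/-- the generator -/
abbrev tG : G × Multiplicative ℤ := (1, Multiplicative.ofAdd 1)

theorem tG_comm {C : Type} [Group C] (φ : C →* G) (c : C) :
    (tG : G × Multiplicative ℤ) * (inG.comp φ) c = (inG.comp φ) c * tG := by
  apply Prod.ext
  · show 1 * φ c = φ c * 1
    rw [one_mul, mul_one]
  · show Multiplicative.ofAdd 1 * 1 = 1 * Multiplicative.ofAdd 1
    rw [one_mul, mul_one]

theorem tG_comm' (c : G) : (tG : G × Multiplicative ℤ) * inG c = inG c * tG :=
  tG_comm (MonoidHom.id G) c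

/-- the symbol of a finite subgroup -/
def zH (H : FinSub G) : KM S H.1 →+ ZM S (G × Multiplicative ℤ) :=
  haveI := H.2
  szM S (inG.comp H.1.subtype) tG (tG_comm _)

theorem conj_inG (H K : FinSub G) (g : G) (φ : H.1 →* K.1) (hφ : ∀ h : H.1, (φ h : G) = g * h * g⁻¹)
    (h : H.1) : (inG.comp K.1.subtype) (φ h) =
      (inG g : G × Multiplicative ℤ) * (inG.comp H.1.subtype) h * (inG g)⁻¹ := by
  show inG (φ h : G) = inG g * inG (h : G) * (inG g)⁻¹
  rw [hφ, map_mul, map_mul, map_inv]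

theorem conj_tG (g : G) : (tG : G × Multiplicative ℤ) = inG g * tG * (inG g)⁻¹ := by
  rw [← tG_comm', mul_inv_cancel_right]

theorem zH_rel (H K : FinSub G) (g : G) (φ : H.1 →* K.1)
    (hφ : ∀ h : H.1, (φ h : G) = g * h * g⁻¹) (x : KM S H.1) :
    zH S K (KM.map S φ x) = zH S H x := by
  have := H.2
  have := K.2
  exact szM_conj S (inG.comp K.1.subtype) (inG.comp H.1.subtype) φ (inG g)
    (conj_inG H K g φ hφ) tG tG (tG_comm K.1.subtype) (tG_comm H.1.subtype) (conj_tG g) x

variable (G) in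
/-- from the colimit to the symbols for `G × ℤ` -/
def toZ : KMColim S G →+ ZM S (G × Multiplicative ℤ) :=
  KMColim.lift (zH S) (zH_rel S)

theorem toZ_ι (H : FinSub G) (x : KM S H.1) : toZ S G (KMColim.ι H x) = zH S H x :=
  KMColim.lift_ι _ _ H x

theorem zH_eq (H : FinSub G) [Finite H.1] (x : KM S H.1) :
    zH S H x = szM S (inG.comp H.1.subtype) tG (tG_comm _) x := rfl

theorem one_cj {A : Type} [Group A] (a : A) : a = 1 * a * 1⁻¹ := by
  rw [one_mul, inv_one, mul_one]

theorem nzM_comp {H : Type} [Group H] (φ : H →* G) (x : KM S H) :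
    nzM S inG tG tG_comm' (KM.map S φ x) = nzM S (inG.comp φ) tG (tG_comm φ) x :=
  nzM_conj S (inG : G →* G × Multiplicative ℤ) (inG.comp φ) φ (1 : G × Multiplicative ℤ)
    (fun y => one_cj ((inG.comp φ) y)) tG tG tG_comm' (tG_comm φ) (one_cj tG) x

theorem bM_toZ (x : KMColim S G) :
    bM S (G × Multiplicative ℤ) (toZ S G x) = nzM S inG tG tG_comm' (asm S G x) := by
  induction x using KMColim.induction with
  | h0 => rw [map_zero, map_zero, map_zero, map_zero]
  | hadd x y hx hy => rw [map_add, map_add, hx, hy, map_add, map_add]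
  | hneg x hx => rw [map_neg, map_neg, hx, map_neg, map_neg]
  | hι H x =>
    have := H.2
    rw [toZ_ι, zH_eq, bM_szM, asm_ι, nzM_comp]

/-- the first projection of a finite subgroup -/
abbrev prF (H : FinSub (G × Multiplicative ℤ)) : H.1 →* G :=
  (MonoidHom.fst G (Multiplicative ℤ)).comp H.1.subtype

/-- the map of a symbol -/
def rH (H : FinSub (G × Multiplicative ℤ)) (z : Cz H.1) : KM S H.1 →+ KMColim S G :=
  haveI := H.2
  Multiplicative.toAdd (z : G × Multiplicative ℤ).2 • szC S (prF H)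

theorem rH_eq (H : FinSub (G × Multiplicative ℤ)) [Finite H.1] (z : Cz H.1) (x : KM S H.1) :
    rH S H z x = Multiplicative.toAdd (z : G × Multiplicative ℤ).2 • szC S (prF H) x := rfl

theorem rH_mul (H : FinSub (G × Multiplicative ℤ)) (z z' : Cz H.1) (x : KM S H.1) :
    rH S H (z * z') x = rH S H z x + rH S H z' x := by
  have := H.2
  rw [rH_eq, rH_eq, rH_eq, ← add_smul]
  rfl

theorem conj_prF (H K : FinSub (G × Multiplicative ℤ)) (g : G × Multiplicative ℤ)
    (φ : H.1 →* K.1) (hφ : ∀ h : H.1, (φ h : G × Multiplicative ℤ) = g * h * g⁻¹) (h : H.1) :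
    prF K (φ h) = g.1 * prF H h * g.1⁻¹ := by
  show (φ h : G × Multiplicative ℤ).1 = _
  rw [hφ]
  rfl

theorem rH_rel (H K : FinSub (G × Multiplicative ℤ)) (g : G × Multiplicative ℤ)
    (φ : H.1 →* K.1) (z : Cz H.1) (z' : Cz K.1)
    (hφ : ∀ h : H.1, (φ h : G × Multiplicative ℤ) = g * h * g⁻¹)
    (hz : (z' : G × Multiplicative ℤ) = g * z * g⁻¹) (x : KM S H.1) :
    rH S K z' (KM.map S φ x) = rH S H z x := by
  have := H.2
  have := K.2
  rw [rH_eq, rH_eq, szC_conj S (prF K) (prF H) φ g.1 (conj_prF H K g φ hφ) x]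
  have h1 : (z' : G × Multiplicative ℤ).2 = (z : G × Multiplicative ℤ).2 := by
    rw [hz]
    show g.2 * (z : G × Multiplicative ℤ).2 * g.2⁻¹ = _
    rw [mul_comm, inv_mul_cancel_left]
  rw [h1]

variable (G) in
/-- the retraction -/
def ret : ZM S (G × Multiplicative ℤ) →+ KMColim S G :=
  ZM.lift (rH S) (rH_mul S) (rH_rel S)

theorem ret_of (H : FinSub (G × Multiplicative ℤ)) (z : Cz H.1) (x : KM S H.1) :
    ret S G (ZM.of H z x) = rH S H z x :=
  ZM.lift_of _ _ _ H z x

theorem ret_toZ (x : KMColim S G) : ret S G (toZ S G x) = x := by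
  induction x using KMColim.induction with
  | h0 => rw [map_zero, map_zero]
  | hadd x y hx hy => rw [map_add, map_add, hx, hy]
  | hneg x hx => rw [map_neg, map_neg, hx]
  | hι H x =>
    have := H.2
    have hf : Finite (rg (inG.comp H.1.subtype)).1 := (rg (inG.comp H.1.subtype)).2
    rw [toZ_ι, zH_eq, szM_apply, ret_of, rH_eq]
    show (1 : ℤ) • _ = _
    rw [one_smul, ← szC_sub S H x]
    refine szC_conj S _ H.1.subtype (rrg (inG.comp H.1.subtype)) 1 ?_ x
    intro h
    show (h : G) = 1 * h * 1⁻¹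
    group

theorem ret_dv {y : ZM S (G × Multiplicative ℤ)} (hy : y ∈ DvM S (G × Multiplicative ℤ)) :
    ret S G y = 0 := by
  have h : DvM S (G × Multiplicative ℤ) ≤ (ret S G).ker := by
    unfold DvM
    rw [AddSubgroup.closure_le]
    rintro _ ⟨H, z, x, _, hz, rfl⟩
    have := H.2
    show ret S G _ = 0
    rw [ret_of, rH_eq]
    have h1 := hz ((MonoidHom.snd G (Multiplicative ℤ)).comp (Cz H.1).subtype)
    have h2 : (z : G × Multiplicative ℤ).2 = 1 := h1
    rw [h2]
    exact zero_smul ℤ _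
  exact h hy

/-- **Theorem.** -/
theorem main_minus [CharZero F] (hS : S.Good) (x : KMColim S G) (n : ℕ) (hn : 0 < n)
    (hx : n • asm S G x = 0) : ∃ l : ℕ, 0 < l ∧ l • x = 0 := by
  have h1 : n • bM S (G × Multiplicative ℤ) (toZ S G x) = 0 := by
    rw [bM_toZ, ← map_nsmul, hx, map_zero]
  obtain ⟨l, hl, h2⟩ := main hS (toZ S G x) n hn h1
  refine ⟨l, hl, ?_⟩
  have h3 := ret_dv S h2
  rwa [map_nsmul, ret_toZ] at h3

end main

end

end Pool.Agent.T9h42.KD
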