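import Pool.Agent.T9h42.DD.LocD

/-!
# The map in degree zero and its kernel, for general coefficients
-/

set_option linter.unusedSectionVars false

namespace Pool.Agent.T9h42.KD

open MonoidAlgebra H970SH H842 Pool.Agent.Y69 Pool.Agent.Y69.StepC Pool.Agent.Y778.NK
  Pool.Agent.T9h42 Pool.Agent.T9h42.Q
open Pool.Agent.Y69.FJK (GK1)

noncomputable section

variable {F : Type} [Field F]

instance (S : Places F) : DecidableEq S.I := Classical.decEq _

section api

variable {S : Places F} {G : Type} [Group G]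

theorem ZM.mk_rel {w : FreeAbelianGroup (MSym S G)} (h : w ∈ MRel S G) :
    (QuotientAddGroup.mk w : ZM S G) = 0 :=
  (QuotientAddGroup.eq_zero_iff w).2 (AddSubgroup.subset_closure h)

theorem ZM.of_add (H : FinSub G) (z : Cz H.1) (x y : KM S H.1) :
    ZM.of H z (x + y) = ZM.of H z x + ZM.of H z y :=
  sub_eq_zero.1 (ZM.mk_rel (Or.inl ⟨H, z, x, y, rfl⟩))

theorem ZM.of_mul (H : FinSub G) (z z' : Cz H.1) (x : KM S H.1) :
    ZM.of H (z * z') x = ZM.of H z x + ZM.of H z' x :=
  sub_eq_zero.1 (ZM.mk_rel (Or.inr (Or.inl ⟨H, z, z', x, rfl⟩)))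

theorem ZM.of_rel (H K : FinSub G) (g : G) (φ : H.1 →* K.1) (z : Cz H.1) (z' : Cz K.1)
    (hφ : ∀ h : H.1, (φ h : G) = g * h * g⁻¹) (hz : (z' : G) = g * z * g⁻¹) (x : KM S H.1) :
    ZM.of K z' (KM.map S φ x) = ZM.of H z x :=
  sub_eq_zero.1 (ZM.mk_rel (Or.inr (Or.inr ⟨H, K, g, φ, z, z', x, hφ, hz, rfl⟩)))

/-- additivity in `x` -/
def ZM.hom (H : FinSub G) (z : Cz H.1) : KM S H.1 →+ ZM S G where
  toFun := ZM.of H z
  map_zero' := by
    have h := ZM.of_add H z (0 : KM S H.1) 0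
    rw [add_zero] at h
    exact left_eq_add.1 h
  map_add' := ZM.of_add H z

/-- additivity in `z` -/
def ZM.zhom (H : FinSub G) (x : KM S H.1) : Cz H.1 →* Multiplicative (ZM S G) where
  toFun z := Multiplicative.ofAdd (ZM.of H z x)
  map_one' := by
    have h := ZM.of_mul H 1 1 x
    rw [mul_one] at h
    exact congrArg Multiplicative.ofAdd (left_eq_add.1 h)
  map_mul' z z' := congrArg Multiplicative.ofAdd (ZM.of_mul H z z' x)

theorem ZM.of_pow (H : FinSub G) (z : Cz H.1) (n : ℕ) (x : KM S H.1) :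
    ZM.of H (z ^ n) x = n • ZM.of H z x :=
  congrArg Multiplicative.toAdd (map_pow (ZM.zhom H x) z n)

/-- the map on the free abelian group -/
def ZM.pre {B : Type*} [AddCommGroup B] (f : ∀ H : FinSub G, Cz H.1 → (KM S H.1 →+ B)) :
    FreeAbelianGroup (MSym S G) →+ B :=
  FreeAbelianGroup.lift fun s => f s.1 s.2.1 s.2.2

theorem ZM.pre_sym {B : Type*} [AddCommGroup B] (f : ∀ H : FinSub G, Cz H.1 → (KM S H.1 →+ B))
    (H : FinSub G) (z : Cz H.1) (x : KM S H.1) : ZM.pre f (msym H z x) = f H z x :=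
  FreeAbelianGroup.lift_apply_of _ _

theorem ZM.pre_aux {B : Type*} [AddCommGroup B] (f : ∀ H : FinSub G, Cz H.1 → (KM S H.1 →+ B))
    (hmul : ∀ (H : FinSub G) (z z' : Cz H.1) (x), f H (z * z') x = f H z x + f H z' x)
    (hf : ∀ (H K : FinSub G) (g : G) (φ : H.1 →* K.1) (z : Cz H.1) (z' : Cz K.1),
      (∀ h : H.1, (φ h : G) = g * h * g⁻¹) → (z' : G) = g * z * g⁻¹ →
      ∀ x, f K z' (KM.map S φ x) = f H z x) : AddSubgroup.closure (MRel S G) ≤ (ZM.pre f).ker := by
  rw [AddSubgroup.closure_le]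
  rintro w (⟨H, z, x, y, rfl⟩ | ⟨H, z, z', x, rfl⟩ | ⟨H, K, g, φ, z, z', x, hφ, hz, rfl⟩)
  · show ZM.pre f _ = 0
    rw [map_sub, map_add, ZM.pre_sym, ZM.pre_sym, ZM.pre_sym, sub_eq_zero, map_add]
  · show ZM.pre f _ = 0
    rw [map_sub, map_add, ZM.pre_sym, ZM.pre_sym, ZM.pre_sym, sub_eq_zero]
    exact hmul H z z' x
  · show ZM.pre f _ = 0
    rw [map_sub, ZM.pre_sym, ZM.pre_sym, sub_eq_zero]
    exact hf H K g φ z z' hφ hz x

/-- the universal property -/
def ZM.lift {B : Type*} [AddCommGroup B] (f : ∀ H : FinSub G, Cz H.1 → (KM S H.1 →+ B))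
    (hmul : ∀ (H : FinSub G) (z z' : Cz H.1) (x), f H (z * z') x = f H z x + f H z' x)
    (hf : ∀ (H K : FinSub G) (g : G) (φ : H.1 →* K.1) (z : Cz H.1) (z' : Cz K.1),
      (∀ h : H.1, (φ h : G) = g * h * g⁻¹) → (z' : G) = g * z * g⁻¹ →
      ∀ x, f K z' (KM.map S φ x) = f H z x) : ZM S G →+ B :=
  QuotientAddGroup.lift (AddSubgroup.closure (MRel S G)) (ZM.pre f) (ZM.pre_aux f hmul hf)

theorem ZM.lift_of {B : Type*} [AddCommGroup B] (f : ∀ H : FinSub G, Cz H.1 → (KM S H.1 →+ B))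
    (hmul : ∀ (H : FinSub G) (z z' : Cz H.1) (x), f H (z * z') x = f H z x + f H z' x)
    (hf : ∀ (H K : FinSub G) (g : G) (φ : H.1 →* K.1) (z : Cz H.1) (z' : Cz K.1),
      (∀ h : H.1, (φ h : G) = g * h * g⁻¹) → (z' : G) = g * z * g⁻¹ →
      ∀ x, f K z' (KM.map S φ x) = f H z x) (H : FinSub G) (z : Cz H.1) (x : KM S H.1) :
    ZM.lift f hmul hf (ZM.of H z x) = f H z x := by
  show QuotientAddGroup.lift _ _ _ (QuotientAddGroup.mk _) = _
  rw [QuotientAddGroup.lift_mk, ZM.pre_sym]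

theorem ZM.induction {Q : ZM S G → Prop} (h0 : Q 0)
    (hadd : ∀ x y, Q x → Q y → Q (x + y)) (hneg : ∀ x, Q x → Q (-x))
    (hι : ∀ (H : FinSub G) (z : Cz H.1) (x : KM S H.1), Q (ZM.of H z x)) (w : ZM S G) : Q w := by
  let q : FreeAbelianGroup (MSym S G) →+ ZM S G :=
    QuotientAddGroup.mk' (AddSubgroup.closure (MRel S G))
  obtain ⟨y, rfl⟩ : ∃ y, q y = w := QuotientAddGroup.mk'_surjective _ w
  induction y using FreeAbelianGroup.induction_on with
  | zero => rw [map_zero]; exact h0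
  | of y => exact hι y.1 y.2.1 y.2.2
  | neg y h => rw [map_neg]; exact hneg _ h
  | add y z hy hz => rw [map_add]; exact hadd _ _ hy hz

end api

section beta

variable (S : Places F) {G : Type} [Group G]

/-- the local groups -/
abbrev L0 (H : Type) [Group H] (i : S.I) : Type := GK0 (S.K i) H

/-- the local groups -/
abbrev L1 (G : Type) [Group G] (i : S.I) : Type := GK1 (S.K i) G

/-- the local maps -/
def nzp (i : S.I) {H : Type} [Group H] (φ : H →* G) (z : G) (hz : ∀ c, z * φ c = φ c * z) :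
    L0 S H i →+ L1 S G i := nz φ z hz

/-- the sum of the local maps -/
def nzL {H : Type} [Group H] (φ : H →* G) (z : G) (hz : ∀ c, z * φ c = φ c * z) :
    Loc0 S H →+ Loc1 S G :=
  DFinsupp.mapRange.addMonoidHom fun i => nzp S i φ z hz

theorem nzL_at {H : Type} [Group H] (φ : H →* G) (z : G) (hz : ∀ c, z * φ c = φ c * z)
    (x : Loc0 S H) (i : S.I) : (nzL S φ z hz x).at i = nzp S i φ z hz (x.at i) := rfl

theorem Loc1.ext {x y : Loc1 S G} (h : ∀ p, x.at p = y.at p) : x = y :=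
  DFinsupp.ext (β := L1 S G) h

theorem nzL_glob {H : Type} [Group H] (φ : H →* G) (z : G) (hz : ∀ c, z * φ c = φ c * z) :
    Glob0 S H ≤ (Glob1 S G).comap (nzL S φ z hz) := by
  rintro x ⟨b, h⟩
  refine ⟨nz φ z hz (b : K0 (MonoidAlgebra F H)), fun i => ?_⟩
  obtain ⟨a, ha⟩ := h i
  refine ⟨nz φ z hz (a : K0 (MonoidAlgebra (S.A i) H)), ?_⟩
  rw [nzL_at, ha, map_add]
  congr 1
  · exact (nz_target (S.toK i) φ z hz _).symm
  · exact (nz_target (S.inK i) φ z hz _).symm

/-- the map of a symbol -/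
def nzM {H : Type} [Group H] (φ : H →* G) (z : G) (hz : ∀ c, z * φ c = φ c * z) :
    KM S H →+ KO S G :=
  QuotientAddGroup.map (Glob0 S H) (Glob1 S G) (nzL S φ z hz) (nzL_glob S φ z hz)

theorem nzM_mul {C : Type} [Group C] (φ : C →* G) (z w : G)
    (hz : ∀ c, z * φ c = φ c * z) (hw : ∀ c, w * φ c = φ c * w)
    (hzw : ∀ c, (z * w) * φ c = φ c * (z * w)) (x : KM S C) :
    nzM S φ (z * w) hzw x = nzM S φ z hz x + nzM S φ w hw x := by
  obtain ⟨x, rfl⟩ := QuotientAddGroup.mk'_surjective (Glob0 S C) x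
  have h : nzL S φ (z * w) hzw x = nzL S φ z hz x + nzL S φ w hw x := by
    apply Loc1.ext
    intro p
    exact nz_mul φ z w hz hw hzw _
  exact congrArg (QuotientAddGroup.mk' (Glob1 S G)) h

theorem nzM_conj {C D : Type} [Group C] [Group D] (φ : C →* G) (ψ : D →* G) (f : D →* C) (g : G)
    (h : ∀ x, φ (f x) = g * ψ x * g⁻¹) (z z' : G) (hz : ∀ c, z * φ c = φ c * z)
    (hz' : ∀ c, z' * ψ c = ψ c * z') (hzz : z = g * z' * g⁻¹) (u : KM S D) :
    nzM S φ z hz (KM.map S f u) = nzM S ψ z' hz' u := by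
  obtain ⟨x, rfl⟩ := QuotientAddGroup.mk'_surjective (Glob0 S D) u
  have h1 : nzL S φ z hz (Loc0.map S f x) = nzL S ψ z' hz' x := by
    apply Loc1.ext
    intro p
    exact nz_conj φ ψ f g h z z' hz hz' hzz _
  exact congrArg (QuotientAddGroup.mk' (Glob1 S G)) h1

variable (G)

/-- the map to `K₀` -/
def bM : ZM S G →+ KO S G :=
  ZM.lift (fun H z => nzM S H.1.subtype (z : G) (fin_comm G H z))
    (fun H z z' x => nzM_mul S H.1.subtype z z' (fin_comm G H z) (fin_comm G H z')
      (fin_comm G H (z * z')) x)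
    (fun H K g φ z z' hφ hz x => nzM_conj S K.1.subtype H.1.subtype φ g hφ z' z (fin_comm G K z')
      (fin_comm G H z) hz x)

theorem bM_of (H : FinSub G) (z : Cz H.1) (x : KM S H.1) :
    bM S G (ZM.of H z x) = nzM S H.1.subtype (z : G) (fin_comm G H z) x :=
  ZM.lift_of _ _ _ H z x

variable {G} {S}

/-- the projection -/
def km0 (S : Places F) (H : Type) [Group H] : Loc0 S H →+ KM S H :=
  QuotientAddGroup.mk' (Glob0 S H)

theorem km0_surj {H : Type} [Group H] (x : KM S H) : ∃ y, km0 S H y = x :=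
  QuotientAddGroup.mk'_surjective _ x

theorem km0_zero {H : Type} [Group H] (x : Loc0 S H) : km0 S H x = 0 ↔ IsGlob0 x :=
  QuotientAddGroup.eq_zero_iff x

/-- the projection -/
def ko (S : Places F) (G : Type) [Group G] : Loc1 S G →+ KO S G :=
  QuotientAddGroup.mk' (Glob1 S G)

theorem ko_zero (x : Loc1 S G) : ko S G x = 0 ↔ IsGlob1 x :=
  QuotientAddGroup.eq_zero_iff x

/-- single families -/
def si0 {H : Type} [Group H] (i : S.I) : L0 S H i →+ Loc0 S H := DFinsupp.singleAddHom (L0 S H) i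

/-- single families -/
def si1 (i : S.I) : L1 S G i →+ Loc1 S G := DFinsupp.singleAddHom (L1 S G) i

/-- single families -/
def sg0 {H : Type} [Group H] (i : S.I) : L0 S H i →+ KM S H := (km0 S H).comp (si0 i)

/-- single families -/
def sg1 (i : S.I) : L1 S G i →+ KO S G := (ko S G).comp (si1 i)

theorem sg0_at {H : Type} [Group H] (i : S.I) (x : L0 S H i) : sg0 i x = KM.at i x := rfl

theorem sg1_at (i : S.I) (x : L1 S G i) : sg1 i x = KO.at i x := rfl

theorem nzM_sg0 {H : Type} [Group H] (φ : H →* G) (z : G) (hz : ∀ c, z * φ c = φ c * z) (i : S.I)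
    (x : L0 S H i) : nzM S φ z hz (sg0 i x) = sg1 i (nzp S i φ z hz x) := by
  have h : nzL S φ z hz (DFinsupp.single (β := L0 S H) i x : Loc0 S H) =
      (DFinsupp.single (β := L1 S G) i (nzp S i φ z hz x) : Loc1 S G) :=
    DFinsupp.mapRange_single (β₁ := L0 S H) (β₂ := L1 S G)
      (f := fun i : S.I => (nzp S i φ z hz : L0 S H i → L1 S G i)) (hf := fun i => map_zero _)
  exact congrArg (QuotientAddGroup.mk' (Glob1 S G)) h

theorem map_sg0 {H K : Type} [Group H] [Group K] (φ : H →* K) (i : S.I)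
    (x : L0 S H i) : KM.map S φ (sg0 i x) = sg0 i (GK0.map φ x) := by
  have h : Loc0.map S φ (DFinsupp.single (β := L0 S H) i x : Loc0 S H) =
      (DFinsupp.single (β := L0 S K) i (GK0.map φ x) : Loc0 S K) :=
    DFinsupp.mapRange_single (β₁ := L0 S H) (β₂ := L0 S K)
      (f := fun i : S.I => ((GK0.map φ : L0 S H i →+ L0 S K i) : L0 S H i → L0 S K i))
      (hf := fun i => map_zero _)
  exact congrArg (QuotientAddGroup.mk' (Glob0 S K)) h

/-- local groups of symbols -/
abbrev LZ (S : Places F) (G : Type) [Group G] (i : S.I) : Type := ZK (S.K i) G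

/-- the maps from the local groups of symbols -/
def thm (i : S.I) : LZ S G i →+ ZM S G :=
  ZK.lift (fun H z => (ZM.hom H z).comp (sg0 i : L0 S H.1 i →+ KM S H.1))
    (fun H z z' x => ZM.of_mul H z z' _)
    (fun H K g φ z z' hφ hz x => by
      show ZM.of K z' (sg0 i (GK0.map φ x)) = ZM.of H z (sg0 i x)
      rw [← map_sg0]
      exact ZM.of_rel H K g φ z z' hφ hz _)

theorem thm_of (i : S.I) (H : FinSub G) (z : Cz H.1) (x : GK0 (S.K i) H.1) :
    thm i (ZK.of H z x) = ZM.of H z (sg0 i x) := ZK.lift_of _ _ _ H z x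

/-- the sum of these maps -/
def Thm (S : Places F) (G : Type) [Group G] : (Π₀ i : S.I, LZ S G i) →+ ZM S G :=
  DFinsupp.sumAddHom fun i => thm i

theorem Thm_single (i : S.I) (y : LZ S G i) :
    Thm S G (DFinsupp.single (β := LZ S G) i y) = thm i y := DFinsupp.sumAddHom_single _ _ _

theorem Thm_surj (x : ZM S G) : ∃ ξ, Thm S G ξ = x := by
  induction x using ZM.induction with
  | h0 => exact ⟨0, map_zero _⟩
  | hadd x y hx hy =>
    obtain ⟨a, rfl⟩ := hx
    obtain ⟨b, rfl⟩ := hy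
    exact ⟨a + b, map_add _ _ _⟩
  | hneg x hx =>
    obtain ⟨a, rfl⟩ := hx
    exact ⟨-a, map_neg _ _⟩
  | hι H z x =>
    obtain ⟨y, hy⟩ := km0_surj (S := S) (H := H.1) x
    have key : ∀ y : Π₀ i : S.I, L0 S H.1 i, ∃ ξ, Thm S G ξ = ZM.of H z (km0 S H.1 y) := by
      intro y
      induction y using DFinsupp.induction with
      | h0 =>
        refine ⟨0, ?_⟩
        rw [map_zero]
        exact ((congrArg (ZM.hom H z) (map_zero (km0 S H.1))).trans
            (map_zero (ZM.hom H z))).symm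
      | ha p b f _ _ ih =>
        obtain ⟨ξ, hξ⟩ := ih
        refine ⟨DFinsupp.single (β := LZ S G) p (ZK.of H z b) + ξ, ?_⟩
        rw [map_add, hξ, Thm_single, thm_of]
        have h1 : km0 S H.1 (DFinsupp.single (β := L0 S H.1) p b + f : Π₀ i : S.I, L0 S H.1 i) =
            (km0 S H.1 (si0 p b) + km0 S H.1 f : KM S H.1) := map_add (km0 S H.1) _ _
        exact ((congrArg (ZM.hom H z) h1).trans (map_add (ZM.hom H z) _ _)).symm
    obtain ⟨ξ, hξ⟩ := key y
    refine ⟨ξ, hξ.trans ?_⟩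
    exact congrArg (ZM.of H z) hy

theorem bM_thm (i : S.I) (y : LZ S G i) : bM S G (thm i y) = sg1 i (btG _ G y) := by
  induction y using ZK.induction with
  | h0 => rw [map_zero, map_zero, map_zero]; exact (map_zero (sg1 i)).symm
  | hadd x y hx hy =>
    rw [map_add, map_add, hx, hy, map_add]
    exact (map_add (sg1 i) _ _).symm
  | hneg x hx =>
    rw [map_neg, map_neg, hx, map_neg]
    exact (map_neg (sg1 i) _).symm
  | hι H z x =>
    rw [thm_of, bM_of, nzM_sg0, btG_of]
    rfl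

/-- the sum of the local maps -/
def bL (S : Places F) (G : Type) [Group G] : (Π₀ i : S.I, LZ S G i) →+ Loc1 S G :=
  DFinsupp.mapRange.addMonoidHom fun i => (btG (S.K i) G : LZ S G i →+ L1 S G i)

theorem bL_at (ξ : Π₀ i : S.I, LZ S G i) (i : S.I) : (bL S G ξ).at i = btG _ G (ξ i) := rfl

theorem bL_single (i : S.I) (y : LZ S G i) : bL S G (DFinsupp.single (β := LZ S G) i y) =
    (DFinsupp.single (β := L1 S G) i (btG _ G y : L1 S G i) : Loc1 S G) :=
  DFinsupp.mapRange_single (β₁ := LZ S G) (β₂ := L1 S G)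
    (f := fun i : S.I => ((btG (S.K i) G : LZ S G i →+ L1 S G i) :
      LZ S G i → L1 S G i)) (hf := fun i => map_zero _)

theorem bM_Thm (ξ : Π₀ i : S.I, LZ S G i) :
    bM S G (Thm S G ξ) = ko S G (bL S G ξ) := by
  induction ξ using DFinsupp.induction with
  | h0 =>
    rw [map_zero, map_zero]
    exact ((congrArg (ko S G) (map_zero (bL S G))).trans (map_zero (ko S G))).symm
  | ha p y f _ _ ih =>
    have h1 : bL S G (DFinsupp.single (β := LZ S G) p y + f) =
        si1 p (btG _ G y) + bL S G f :=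
      (map_add (bL S G) _ _).trans (congrArg (· + bL S G f) (bL_single p y))
    rw [map_add, map_add, ih, Thm_single, bM_thm, h1, map_add]
    rfl

end beta

/-- the properties of the completions of a Dedekind domain which are used -/
structure Places.Good (S : Places F) : Prop where
  inj : ∀ i, Function.Injective (S.inK i)
  fin : ∀ x : F, {i : S.I | S.toK i x ∉ Set.range (S.inK i)}.Finite
  cl : ∀ (i : S.I) (x : S.K i), (S.inK i).IsIntegralElem x → ∃ a, S.inK i a = x
  sep : ∀ (i : S.I) (p : ℕ), p.Prime → ¬ IsUnit ((p : ℕ) : S.A i) →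
    ∀ x : S.A i, (∀ k : ℕ, ∃ y, x = p ^ k • y) → x = 0

section fin

variable {S : Places F} {G : Type} [Group G]

theorem thm_zp (i : S.I) (w : ZK (S.A i) G) : thm i (ccZ (S.inK i) G w) = 0 := by
  induction w using ZK.induction with
  | h0 => rw [map_zero, map_zero]
  | hadd x y hx hy => rw [map_add, map_add, hx, hy, add_zero]
  | hneg x hx => rw [map_neg, map_neg, hx, neg_zero]
  | hι H z x =>
    rw [ccZ_of, thm_of]
    have h : (sg0 i (gc (S.inK i) H.1 x : L0 S H.1 i) : KM S H.1) = 0 := by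
      refine (km0_zero _).2 ?_
      refine ⟨0, fun q => ?_⟩
      by_cases hq : i = q
      · subst hq
        refine ⟨x, ?_⟩
        rw [map_zero, zero_add]
        exact DFinsupp.single_eq_same (β := L0 S H.1)
      · refine ⟨0, ?_⟩
        rw [map_zero, map_zero, add_zero]
        exact DFinsupp.single_eq_of_ne (β := L0 S H.1) (Ne.symm hq)
    exact (congrArg (ZM.hom H z) h).trans (map_zero (ZM.hom H z))

/-- elements of `K₀(F[H])` are integral almost everywhere -/
theorem int_fin (hS : S.Good) (H : Type) [Group H] [Finite H] (x : GK0 F H) :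
    ∃ T : Finset S.I, ∀ i, i ∉ T → ∃ a : GK0 (S.A i) H, co0 (S.inK i) H a = co0 (S.toK i) H x := by
  classical
  have := Fintype.ofFinite H
  induction (show K0 (MonoidAlgebra F H) from x) using K0.induction with
  | hadd x y hx hy =>
    obtain ⟨T, hT⟩ := hx
    obtain ⟨T', hT'⟩ := hy
    refine ⟨T ∪ T', fun i hi => ?_⟩
    obtain ⟨a, ha⟩ := hT i fun h => hi (Finset.mem_union_left _ h)
    obtain ⟨a', ha'⟩ := hT' i fun h => hi (Finset.mem_union_right _ h)
    refine ⟨a + a', ?_⟩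
    rw [map_add, ha, ha']
    exact (map_add (co0 (S.toK i) H) _ _).symm
  | hneg x hx =>
    obtain ⟨T, hT⟩ := hx
    refine ⟨T, fun i hi => ?_⟩
    obtain ⟨a, ha⟩ := hT i hi
    refine ⟨-a, ?_⟩
    rw [map_neg, ha]
    exact (map_neg (co0 (S.toK i) H) _).symm
  | hcl n e he =>
    have hfin : (⋃ d : Fin n × Fin n × H,
        {i : S.I | S.toK i ((e d.1 d.2.1).coeff d.2.2) ∉ Set.range (S.inK i)}).Finite :=
      Set.finite_iUnion fun d => hS.fin _
    refine ⟨hfin.toFinset, fun i hi => ?_⟩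
    have h1 : ∀ a b h, ∃ c, S.inK i c = S.toK i ((e a b).coeff h) := by
      intro a b h
      by_contra hc
      apply hi
      rw [Set.Finite.mem_toFinset, Set.mem_iUnion]
      exact ⟨(a, b, h), fun ⟨c, hc'⟩ => hc ⟨c, hc'⟩⟩
    choose c hc using h1
    let e' : Matrix (Fin n) (Fin n) (MonoidAlgebra (S.A i) H) :=
      fun a b => ∑ h, single h (c a b h)
    have hco : ∀ {A B : Type} [CommRing A] [CommRing B] (θ : A →+* B) (x : MonoidAlgebra A H)
        (h : H), (mapRingHom H θ x).coeff h = θ (x.coeff h) := by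
      intro A B _ _ θ x h
      simp
    have hinj : Function.Injective (mapRingHom H (S.inK i)) := by
      intro x y hxy
      apply coeff_injective
      ext h
      have h2 := congrArg (fun z => z.coeff h) hxy
      simp only [hco] at h2
      exact hS.inj i h2
    have h2 : e'.map (mapRingHom H (S.inK i)) = e.map (mapRingHom H (S.toK i)) := by
      refine Matrix.ext fun a b => ?_
      show mapRingHom H (S.inK i) (e' a b) = mapRingHom H (S.toK i) (e a b)
      apply coeff_injective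
      ext h
      rw [hco, hco, ← hc]
      congr 1
      show (∑ h, single h (c a b h) : MonoidAlgebra (S.A i) H).coeff h = _
      rw [coeff_sum, Finsupp.finsetSum_apply, Finset.sum_eq_single h]
      · rw [coeff_single, Finsupp.single_eq_same]
      · intro h' _ hne
        rw [coeff_single, Finsupp.single_eq_of_ne (Ne.symm hne)]
      · intro h1
        exact absurd (Finset.mem_univ h) h1
    have he' : e' * e' = e' := by
      have h3 : (e' * e').map (mapRingHom H (S.inK i)) = e'.map (mapRingHom H (S.inK i)) := by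
        rw [Matrix.map_mul, h2, ← Matrix.map_mul, he]
      refine Matrix.ext fun a b => hinj ?_
      exact congrFun (congrFun h3 a) b
    refine ⟨(cl0 e' he' : K0 (MonoidAlgebra (S.A i) H)), ?_⟩
    show K0.map (mapRingHom H (S.inK i)) (cl0 e' he') = K0.map (mapRingHom H (S.toK i)) (cl0 e he)
    rw [K0map_cl0, K0map_cl0]
    exact cl0_eq _ _ h2

/-- the local classes of global symbols cancel -/
theorem cancel (hS : S.Good) (v : ZK F G) : ∃ S0 : Finset S.I, ∀ T : Finset S.I, S0 ⊆ T →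
    ∑ i ∈ T, thm i (ccZ (S.toK i) G v) = 0 := by
  classical
  induction v using ZK.induction with
  | hι H z x =>
    have : Finite H.1 := H.2
    obtain ⟨T0, hT0⟩ := int_fin hS H.1 x
    refine ⟨T0, fun T hT => ?_⟩
    let y : S.I → Loc0 S H.1 := fun i =>
      (DFinsupp.single (β := L0 S H.1) i (co0 (S.toK i) H.1 x) : Loc0 S H.1)
    have e1 : ∀ i ∈ T, thm i (ccZ (S.toK i) G (ZK.of H z x)) = ZM.hom H z (km0 S H.1 (y i)) := by
      intro i _
      rw [ccZ_of, thm_of]
      rfl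
    have e2 : km0 S H.1 (∑ i ∈ T, y i) = 0 := by
      refine (km0_zero _).2 ?_
      refine ⟨x, fun q => ?_⟩
      have e3 : (∑ i ∈ T, y i).at q = ∑ i ∈ T, (y i).at q :=
        DFinsupp.finsetSum_apply (β := L0 S H.1) T y q
      rw [e3]
      by_cases hq : q ∈ T
      · refine ⟨0, ?_⟩
        rw [Finset.sum_eq_single q, map_zero, add_zero]
        · exact DFinsupp.single_eq_same (β := L0 S H.1)
        · intro p _ hpq
          exact DFinsupp.single_eq_of_ne (β := L0 S H.1) (Ne.symm hpq)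
        · intro h; exact absurd hq h
      · obtain ⟨a, ha⟩ := hT0 q fun h => hq (hT h)
        refine ⟨-a, ?_⟩
        rw [map_neg, ha, add_neg_cancel]
        refine Finset.sum_eq_zero fun p hp => ?_
        exact DFinsupp.single_eq_of_ne (β := L0 S H.1) (fun h => hq (h ▸ hp))
    rw [Finset.sum_congr rfl e1]
    refine (map_sum (ZM.hom H z) (fun i => (km0 S H.1 (y i) : KM S H.1)) T).symm.trans ?_
    have e5 : ∑ i ∈ T, km0 S H.1 (y i) = 0 := (map_sum (km0 S H.1) y T).symm.trans e2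
    exact (congrArg (ZM.hom H z) e5).trans (map_zero (ZM.hom H z))
  | h0 => exact ⟨∅, fun T _ => Finset.sum_eq_zero fun p _ => by rw [map_zero, map_zero]⟩
  | hadd x y hx hy =>
    obtain ⟨S1, h1⟩ := hx
    obtain ⟨S2, h2⟩ := hy
    refine ⟨S1 ∪ S2, fun T hT => ?_⟩
    have h3 := h1 T (Finset.union_subset_left hT)
    have h4 := h2 T (Finset.union_subset_right hT)
    simp only [map_add, Finset.sum_add_distrib, h3, h4, add_zero]
  | hneg x hx =>
    obtain ⟨S1, h1⟩ := hx
    refine ⟨S1, fun T hT => ?_⟩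
    simp only [map_neg, Finset.sum_neg_distrib, h1 T hT, neg_zero]

theorem thm_dv (i : S.I) {d : LZ S G i} (hd : d ∈ DvG (S.K i) G ℤ) : thm i d ∈ DvM S G := by
  refine (AddSubgroup.closure_le (K := (DvM S G).comap (thm i))).2 ?_ hd
  rintro _ ⟨H, z, x, hH, hz, rfl⟩
  show thm i _ ∈ DvM S G
  rw [thm_of]
  exact AddSubgroup.subset_closure ⟨H, z, _, hH, hz, rfl⟩

/-- **Theorem.** -/
theorem main [CharZero F] (hS : S.Good) (x : ZM S G) (n : ℕ) (hn : 0 < n)
    (hx : n • bM S G x = 0) : ∃ l : ℕ, 0 < l ∧ l • x ∈ DvM S G := by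
  classical
  have hcz : ∀ i, CharZero (S.K i) := fun i => charZero_of_injective_ringHom (S.toK i).injective
  obtain ⟨ξ, rfl⟩ := Thm_surj x
  rw [bM_Thm, ← map_nsmul] at hx
  obtain ⟨b, hb⟩ := (ko_zero _).1 hx
  choose a ha using hb
  have htr : ∀ (i : S.I) (c : G) (χ : G → ℤ) (hχ : AddOnC c χ), 0 < orderOf c →
      ¬ IsUnit ((orderOf c : ℕ) : S.A i) → Tr (S.K i) hχ (btG (S.K i) G (n • ξ i)) =
        S.toK i (Tr F hχ (b : K1 (MonoidAlgebra F G))) := by
    intro i c χ hχ hc hs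
    have h2 : n • btG (S.K i) G (ξ i) = K1map (mapRingHom G (S.toK i)) b +
        K1map (mapRingHom G (S.inK i)) (a i) := ha i
    have h3 := congrArg (Tr (S.K i) hχ) h2
    rw [map_add, Tr_map, Tr_map, Tr_sing' (S.inK i) (hS.inj i) (hS.sep i) hχ hc hs, map_zero,
      add_zero] at h3
    rw [map_nsmul]
    exact h3
  obtain ⟨M, v, hM, hv⟩ := descent (b : K1 (MonoidAlgebra F G)) S.K S.toK (fun i => n • ξ i)
    (fun i k => ¬ IsUnit ((k : ℕ) : S.A i)) htr
  -- the local classes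
  have hloc : ∀ i : S.I, ∃ (m : ℕ) (w : ZK (S.A i) G), 0 < m ∧
      m • ((M * n) • ξ i - ccZ (S.toK i) G v) - ccZ (S.inK i) G w ∈ DvG (S.K i) G ℤ := by
    intro i
    apply loc_gen (S.inK i) (hS.inj i) (hS.cl i)
    intro c χ hχ hc hs
    rw [map_sub, map_sub, btG_ccZ, Tr_map, hv c χ hχ hc ⟨i, hs⟩, mul_smul, map_nsmul, map_nsmul,
      htr i c χ hχ hc hs, map_mul, map_natCast, nsmul_eq_mul, sub_self]
  choose m w hm hw using hloc
  obtain ⟨S0, hS0⟩ := cancel hS v
  let T : Finset S.I := ξ.support ∪ S0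
  let m0 : ℕ := ∏ i ∈ T, m i
  have hm0 : 0 < m0 := Finset.prod_pos fun p _ => hm p
  have hTh : Thm S G ξ = ∑ i ∈ T, thm i (ξ i) := by
    unfold Thm
    rw [DFinsupp.sumAddHom_apply, DFinsupp.sum]
    refine Finset.sum_subset Finset.subset_union_left ?_
    intro p _ hp
    rw [DFinsupp.notMem_support_iff.1 hp, map_zero]
  refine ⟨m0 * (M * n), Nat.mul_pos hm0 (Nat.mul_pos hM hn), ?_⟩
  have h4 : ∀ i ∈ T, (m0 * (M * n)) • thm i (ξ i) - m0 • thm i (ccZ (S.toK i) G v) ∈
      DvM S G := by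
    intro p hp
    obtain ⟨k, hk⟩ := Finset.dvd_prod_of_mem m hp
    have h6 : m0 = k * m p := by rw [mul_comm]; exact hk
    have h7 := AddSubgroup.nsmul_mem _ (thm_dv p (hw p)) k
    rw [map_sub, thm_zp, sub_zero, map_nsmul, map_sub, map_nsmul, ← mul_smul, ← h6, smul_sub,
      ← mul_smul] at h7
    exact h7
  have h8 := AddSubgroup.sum_mem (DvM S G) h4
  rw [Finset.sum_sub_distrib, ← Finset.smul_sum, ← Finset.smul_sum,
    hS0 T Finset.subset_union_right, smul_zero, sub_zero, ← hTh] at h8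
  exact h8

theorem dvM_tors (hyp : ZSep G) {y : ZM S G} (hy : y ∈ DvM S G) :
    ∃ l : ℕ, 0 < l ∧ l • y = 0 := by
  unfold DvM at hy
  induction hy using AddSubgroup.closure_induction with
  | mem y hy =>
    obtain ⟨H, z, x, hH, hz, rfl⟩ := hy
    obtain ⟨m, hm, h⟩ := hyp H z hH hz
    refine ⟨m, hm, ?_⟩
    rw [← ZM.of_pow]
    have h1 : ZM.zhom H x (z ^ m) = 1 := by
      have h2 : commutator (Cz H.1) ≤ (ZM.zhom (S := S) H x).ker :=
        Abelianization.commutator_subset_ker _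
      exact h2 h
    exact congrArg Multiplicative.toAdd h1
  | zero => exact ⟨1, one_pos, smul_zero _⟩
  | add x y _ _ hx hy =>
    obtain ⟨m, hm, hx⟩ := hx
    obtain ⟨n, hn, hy⟩ := hy
    refine ⟨m * n, Nat.mul_pos hm hn, ?_⟩
    rw [smul_add, mul_comm, mul_smul, hx, smul_zero, mul_comm, mul_smul, hy, smul_zero, add_zero]
  | neg x _ hx =>
    obtain ⟨m, hm, hx⟩ := hx
    exact ⟨m, hm, by rw [smul_neg, hx, neg_zero]⟩

theorem zsep_fg (hfg : ∀ C : FinSub G, IsCyclic C.1 → Group.FG (Abelianization (Cz C.1))) :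
    ZSep G := by
  intro H z hH hχ
  have := hfg H hH
  obtain ⟨m, hm, h1⟩ := Pool.Agent.T9h42.KZ.fg_hypZ (Abelianization.of z) fun χ =>
    hχ (χ.comp Abelianization.of)
  refine ⟨m, hm, ?_⟩
  rw [← Abelianization.ker_of, MonoidHom.mem_ker, map_pow]
  exact h1

theorem isTwistM : IsTwistM (bM S G) := by
  intro i H z n e
  refine ⟨Pool.Agent.T9h42.KZ.twU _ H z e, Pool.Agent.T9h42.KZ.twU_val _ H z e, ?_⟩
  have h1 := bM_of S G H z (sg0 i (GK0.mk e : L0 S H.1 i) : KM S H.1)
  have h2 := nzM_sg0 (S := S) H.1.subtype (z : G) (fin_comm G H z) i (GK0.mk e : L0 S H.1 i)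
  have h3 := congrArg (sg1 (S := S) (G := G) i)
    (Pool.Agent.T9h42.KZ.nz_mk (S.K i) H z n e :
      nzp S i H.1.subtype (z : G) (fin_comm G H z) (GK0.mk e : L0 S H.1 i) = _)
  exact h1.trans (h2.trans h3)

end fin

end

end Pool.Agent.T9h42.KD
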