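import Pool.Agent.T9h42.GZ.GeneQ

/-!
# Descent and integrality of idempotents of group algebras
-/

set_option linter.unusedSectionVars false

namespace Pool.Agent.T9h42.DD

open MonoidAlgebra Pool.Agent.Y69 Pool.Agent.Y778.NK Pool.Agent.T9h42
open Polynomial (X C aeval eval eval_mul eval_C eval_add eval_monomial aeval_monomial eval₂_sub eval₂_pow eval₂_X)
open scoped Polynomial

noncomputable section

section desc

variable {A B : Type} [CommRing A] [CommRing B] [Algebra ℚ A] [Algebra ℚ B]

theorem pow_atoms {L : Type} [Fintype L] {ε : L → B} (h1 : ∀ l, ε l * ε l = ε l)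
    (h2 : ∀ l l', l ≠ l' → ε l * ε l' = 0) (a : L → ℚ) (k : ℕ) :
    (∑ l, a l • ε l) ^ (k + 1) = ∑ l, (a l) ^ (k + 1) • ε l := by
  classical
  induction k with
  | zero => simp
  | succ k ih =>
    rw [pow_succ, ih, Finset.sum_mul_sum]
    refine Finset.sum_congr rfl fun l _ => ?_
    rw [Finset.sum_eq_single l]
    · rw [smul_mul_smul_comm, h1, ← pow_succ]
    · intro l' _ hl
      rw [smul_mul_smul_comm, h2 l l' (Ne.symm hl), smul_zero]
    · intro h; exact absurd (Finset.mem_univ l) h

theorem poly_atoms {L : Type} [Fintype L] {ε : L → B} (h1 : ∀ l, ε l * ε l = ε l)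
    (h2 : ∀ l l', l ≠ l' → ε l * ε l' = 0) (a : L → ℚ) (Q : ℚ[X]) :
    (∑ l, a l • ε l) * aeval (∑ l, a l • ε l) Q = ∑ l, (a l * Q.eval (a l)) • ε l := by
  induction Q using Polynomial.induction_on' with
  | add p q hp hq =>
    rw [map_add, mul_add, hp, hq, ← Finset.sum_add_distrib]
    refine Finset.sum_congr rfl fun l _ => ?_
    rw [eval_add, mul_add, add_smul]
  | monomial n c =>
    rw [aeval_monomial, mul_left_comm, ← pow_succ', pow_atoms h1 h2, ← Algebra.smul_def,
      Finset.smul_sum]
    refine Finset.sum_congr rfl fun l _ => ?_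
    rw [eval_monomial, smul_smul]
    congr 1
    ring

/-- **Descent.** -/
theorem Hn_desc (θ : A →+* B) (hθ : Function.Injective θ) (u : A) (hu : θ u ∈ Hn B) :
    u ∈ Hn A := by
  classical
  obtain ⟨L, _, _, ε, n, h1, -, h2, h3⟩ := Hn_atoms (fun _ : Unit => θ u) fun _ => hu
  have h3' : θ u = ∑ l, ((n () l : ℤ) : ℚ) • ε l := by
    rw [h3 ()]
    refine Finset.sum_congr rfl fun l _ => ?_
    rw [Int.cast_smul_eq_zsmul]
  let V : Finset ℚ := (Finset.univ.image fun l => ((n () l : ℤ) : ℚ)).erase 0
  let Q : ℚ → ℚ[X] := fun m => C m⁻¹ * Lagrange.basis V id m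
  have hQ : ∀ m ∈ V, ∀ l, ((n () l : ℤ) : ℚ) * (Q m).eval ((n () l : ℤ) : ℚ) =
      if ((n () l : ℤ) : ℚ) = m then 1 else 0 := by
    intro m hm l
    have hm0 : m ≠ 0 := (Finset.mem_erase.1 hm).1
    show _ * (C m⁻¹ * Lagrange.basis V id m).eval _ = _
    rw [eval_mul, eval_C]
    by_cases h : ((n () l : ℤ) : ℚ) = m
    · rw [if_pos h, h]
      have h4 : (Lagrange.basis V id m).eval m = 1 :=
        Lagrange.eval_basis_self (s := V) (v := id) (Set.injOn_id _) hm
      rw [h4, mul_one, mul_inv_cancel₀ hm0]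
    · rw [if_neg h]
      by_cases h0 : ((n () l : ℤ) : ℚ) = 0
      · rw [h0, zero_mul]
      · have hl : ((n () l : ℤ) : ℚ) ∈ V :=
          Finset.mem_erase.2 ⟨h0, Finset.mem_image.2 ⟨l, Finset.mem_univ _, rfl⟩⟩
        have h4 : (Lagrange.basis V id m).eval ((n () l : ℤ) : ℚ) = 0 :=
          Lagrange.eval_basis_of_ne (s := V) (v := id) (Ne.symm h) hl
        rw [h4, mul_zero, mul_zero]
  let e : ℚ → A := fun m => u * aeval u (Q m)
  have hθq : ∀ (P : ℚ[X]), θ (aeval u P) = aeval (θ u) P := by
    intro P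
    have := Polynomial.aeval_algHom_apply θ.toRatAlgHom u P
    exact this.symm
  have he : ∀ m ∈ V, θ (e m) = ∑ l ∈ Finset.univ.filter fun l => ((n () l : ℤ) : ℚ) = m, ε l := by
    intro m hm
    show θ (u * aeval u (Q m)) = _
    rw [map_mul, hθq, h3', poly_atoms h1 h2, Finset.sum_filter]
    refine Finset.sum_congr rfl fun l _ => ?_
    rw [hQ m hm l]
    split_ifs
    · exact one_smul _ _
    · exact zero_smul _ _
  have hidem : ∀ m ∈ V, e m * e m = e m := by
    intro m hm
    apply hθ
    rw [map_mul, he m hm, Finset.sum_mul_sum]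
    refine Finset.sum_congr rfl fun l hl => ?_
    rw [Finset.sum_eq_single l, h1]
    · intro l' _ hl'
      exact h2 l l' (Ne.symm hl')
    · intro h; exact absurd hl h
  have hsum : u = ∑ m ∈ V, m • e m := by
    apply hθ
    rw [map_sum]
    have h4 : ∀ m ∈ V, θ (m • e m) =
        ∑ l ∈ Finset.univ.filter fun l => ((n () l : ℤ) : ℚ) = m, ((n () l : ℤ) : ℚ) • ε l := by
      intro m hm
      have h5 : θ (m • e m) = m • θ (e m) := map_smul θ.toRatAlgHom m (e m)
      rw [h5, he m hm, Finset.smul_sum]
      refine Finset.sum_congr rfl fun l hl => ?_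
      rw [(Finset.mem_filter.1 hl).2]
    rw [Finset.sum_congr rfl h4, h3']
    have h6 : ∀ l ∈ Finset.univ, ((n () l : ℤ) : ℚ) • ε l ≠ 0 → ((n () l : ℤ) : ℚ) ∈ V := by
      intro l _ hl
      refine Finset.mem_erase.2 ⟨?_, Finset.mem_image.2 ⟨l, Finset.mem_univ _, rfl⟩⟩
      intro h0
      rw [h0, zero_smul] at hl
      exact hl rfl
    have h7 := Finset.sum_fiberwise_of_maps_to (s := Finset.univ.filter fun l : L =>
      ((n () l : ℤ) : ℚ) ∈ V) (t := V) (g := fun l => ((n () l : ℤ) : ℚ))
      (fun l hl => (Finset.mem_filter.1 hl).2) (fun l => ((n () l : ℤ) : ℚ) • ε l)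
    rw [← Finset.sum_filter_of_ne h6, ← h7]
    refine Finset.sum_congr rfl fun m hm => ?_
    refine Finset.sum_congr ?_ fun _ _ => rfl
    ext l
    rw [Finset.mem_filter, Finset.mem_filter, Finset.mem_filter]
    constructor
    · rintro ⟨⟨h8, _⟩, h9⟩
      exact ⟨h8, h9⟩
    · rintro ⟨h8, h9⟩
      exact ⟨⟨h8, h9 ▸ hm⟩, h9⟩
  rw [hsum]
  refine AddSubgroup.sum_mem _ fun m hm => ?_
  obtain ⟨l, _, hl⟩ := Finset.mem_image.1 (Finset.mem_erase.1 hm).2
  have h9 : m • e m = (n () l : ℤ) • e m := by
    have h10 : ((n () l : ℤ) : ℚ) • e m = (n () l : ℤ) • e m := Int.cast_smul_eq_zsmul ℚ _ _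
    rw [← h10]
    exact congrArg (· • e m) hl.symm
  rw [h9]
  exact AddSubgroup.zsmul_mem _ (Hn_idem (hidem m hm)) _

end desc

section integ

variable {K : Type} [Field K] {ι : Type} [Fintype ι] [DecidableEq ι]

theorem trace_int_closed [IsAlgClosed K] {n : ℕ} (hn : 0 < n) (M : Matrix ι ι K)
    (hM : M ^ (n + 1) = M) : IsIntegral ℤ M.trace := by
  rw [Matrix.trace_eq_sum_roots_charpoly]
  refine IsIntegral.multiset_sum fun l hl => ?_
  have h1 : M.charpoly.eval l = 0 := (Polynomial.mem_roots'.1 hl).2
  rw [Matrix.eval_charpoly] at h1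
  obtain ⟨v, hv, h2⟩ := Matrix.exists_mulVec_eq_zero_iff.2 h1
  have h3 : M.mulVec v = l • v := by
    rw [Matrix.sub_mulVec, sub_eq_zero] at h2
    rw [← h2, Matrix.scalar_apply]
    ext i
    rw [Matrix.mulVec_diagonal]
    rfl
  have h4 : ∀ k : ℕ, (M ^ k).mulVec v = l ^ k • v := by
    intro k
    induction k with
    | zero => simp
    | succ k ih =>
      rw [pow_succ', ← Matrix.mulVec_mulVec, ih, Matrix.mulVec_smul, h3, smul_smul, pow_succ]
  have h5 := h4 (n + 1)
  rw [hM, h3] at h5
  obtain ⟨i, hi⟩ := Function.ne_iff.1 hv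
  have h6 := congrFun h5 i
  simp only [Pi.smul_apply, smul_eq_mul] at h6
  have h7 : l = l ^ (n + 1) := mul_right_cancel₀ hi h6
  refine ⟨X ^ (n + 1) - X, ?_, ?_⟩
  · apply Polynomial.monic_X_pow_sub
    rw [Polynomial.degree_X]
    exact_mod_cast Nat.succ_lt_succ hn
  · rw [eval₂_sub, eval₂_pow, eval₂_X, ← h7, sub_self]

theorem trace_int {n : ℕ} (hn : 0 < n) (M : Matrix ι ι K)
    (hM : M ^ (n + 1) = M) : IsIntegral ℤ M.trace := by
  have h1 := trace_int_closed (K := AlgebraicClosure K) hn
    ((algebraMap K (AlgebraicClosure K)).mapMatrix M) (by rw [← map_pow, hM])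
  have h2 : ((algebraMap K (AlgebraicClosure K)).mapMatrix M).trace =
      algebraMap K (AlgebraicClosure K) M.trace :=
    (AddMonoidHom.map_trace (algebraMap K (AlgebraicClosure K)).toAddMonoidHom M).symm
  rw [h2] at h1
  exact (isIntegral_algebraMap_iff (algebraMap K (AlgebraicClosure K)).injective).1 h1

variable {C : Type} [CommGroup C] [Fintype C] [DecidableEq C]

variable (K C) in
/-- the regular representation -/
def regR : C →* Matrix C C K where
  toFun g := Matrix.of fun a b => if a = g * b then 1 else 0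
  map_one' := by
    ext a b
    rw [Matrix.of_apply, one_mul, Matrix.one_apply]
  map_mul' g h := by
    ext a b
    rw [Matrix.mul_apply, Matrix.of_apply, Finset.sum_eq_single (h * b)]
    · rw [Matrix.of_apply, Matrix.of_apply, if_pos rfl, mul_one, mul_assoc]
    · intro c _ hc
      rw [Matrix.of_apply, Matrix.of_apply, if_neg hc, mul_zero]
    · intro h; exact absurd (Finset.mem_univ _) h

theorem trace_reg (x : MonoidAlgebra K C) :
    (MonoidAlgebra.lift K (Matrix C C K) C (regR K C) x).trace = Fintype.card C * x.coeff 1 := by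
  induction x using MonoidAlgebra.induction_linear with
  | zero => simp
  | add x y hx hy =>
    rw [map_add, Matrix.trace_add, hx, hy, coeff_add, Finsupp.add_apply, mul_add]
  | single g r =>
    rw [MonoidAlgebra.lift_single, Matrix.trace_smul, coeff_single]
    by_cases hg : g = 1
    · subst hg
      rw [map_one, Matrix.trace_one, Finsupp.single_eq_same, smul_eq_mul, mul_comm]
    · rw [Finsupp.single_eq_of_ne (Ne.symm hg), mul_zero]
      have : (regR K C g).trace = 0 := by
        refine Finset.sum_eq_zero fun a _ => ?_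
        show (if a = g * a then (1 : K) else 0) = 0
        rw [if_neg]
        intro h
        exact hg (right_eq_mul.1 h)
      rw [this, smul_zero]

/-- coefficients of idempotents are integral up to the order of the group -/
theorem idem_coeff_int (e : MonoidAlgebra K C) (he : e * e = e) (c : C) :
    IsIntegral ℤ ((Fintype.card C : K) * e.coeff c) := by
  have hpow : ∀ k : ℕ, e ^ (k + 1) = e := by
    intro k
    induction k with
    | zero => exact pow_one e
    | succ k ih => rw [pow_succ, ih, he]
  have h1 : (e * single c⁻¹ 1) ^ (Fintype.card C + 1) = e * single c⁻¹ 1 := by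
    rw [mul_pow, hpow, single_pow, one_pow, pow_succ, pow_card_eq_one, one_mul]
  have h2 := trace_int (K := K) (n := Fintype.card C) Fintype.card_pos
    (MonoidAlgebra.lift K (Matrix C C K) C (regR K C) (e * single c⁻¹ 1)) (by
      rw [← map_pow, h1])
  rw [trace_reg] at h2
  have h3 : (e * single c⁻¹ (1 : K)).coeff 1 = e.coeff c := by
    rw [MonoidAlgebra.coeff_mul_single_apply]
    simp
  rw [h3] at h2
  exact h2

end integ

section closed

variable {A K : Type} [CommRing A] [Field K] [Algebra A K]

/-- **Integrality of idempotents.** -/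
theorem idem_lift (hinj : Function.Injective (algebraMap A K))
    (hcl : ∀ x : K, IsIntegral A x → ∃ a, algebraMap A K a = x) {C : Type} [CommGroup C]
    [Finite C] (hC : IsUnit ((Nat.card C : ℕ) : A)) (e : MonoidAlgebra K C) (he : e * e = e) :
    ∃ e' : MonoidAlgebra A C, e' * e' = e' ∧ mapRingHom C (algebraMap A K) e' = e := by
  classical
  let _ := Fintype.ofFinite C
  have h1 : ∀ c, ∃ a : A, algebraMap A K a = e.coeff c := by
    intro c
    have h2 := idem_coeff_int e he c
    have h3 : IsIntegral A ((Fintype.card C : K) * e.coeff c) := h2.tower_top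
    obtain ⟨a, ha⟩ := hcl _ h3
    obtain ⟨u, hu⟩ := hC
    refine ⟨(u⁻¹ : Aˣ) * a, ?_⟩
    rw [map_mul, ha]
    have h4 : (Fintype.card C : K) = algebraMap A K (u : A) := by
      rw [hu, map_natCast, Nat.card_eq_fintype_card]
    rw [h4, ← mul_assoc, ← map_mul, Units.inv_mul, map_one, one_mul]
  choose a ha using h1
  let e' : MonoidAlgebra A C := ∑ c : C, single c (a c)
  have h5 : mapRingHom C (algebraMap A K) e' = e := by
    apply coeff_injective
    ext c
    rw [mapi_coeff', show e'.coeff c = a c from ?_, ha]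
    show (∑ c : C, single c (a c)).coeff c = a c
    rw [coeff_sum, Finsupp.finsetSum_apply, Finset.sum_eq_single c]
    · rw [coeff_single, Finsupp.single_eq_same]
    · intro b _ hb
      rw [coeff_single, Finsupp.single_eq_of_ne (Ne.symm hb)]
    · intro h; exact absurd (Finset.mem_univ c) h
  refine ⟨e', ?_, h5⟩
  have h6 : Function.Injective (mapRingHom C (algebraMap A K)) := by
    intro x y hxy
    apply coeff_injective
    ext c
    have := congrArg (fun z => z.coeff c) hxy
    simp only [mapi_coeff'] at this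
    exact hinj this
  apply h6
  rw [map_mul, h5, he]
where
  mapi_coeff' {A B : Type} [CommRing A] [CommRing B] {C : Type} [Group C] {i : A →+* B}
      {x : MonoidAlgebra A C} {c : C} : (mapRingHom C i x).coeff c = i (x.coeff c) := by
    induction x using MonoidAlgebra.induction_linear with
    | zero => simp
    | add x y hx hy =>
      rw [map_add, coeff_add, coeff_add, Finsupp.add_apply, Finsupp.add_apply, hx, hy, map_add]
    | single g r =>
      classical
      have h2 : mapRingHom C i (single g r) = single g (i r) := by simp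
      rw [h2, coeff_single, coeff_single, Finsupp.single_apply, Finsupp.single_apply]
      split_ifs
      · rfl
      · rw [map_zero]

end closed

end

end Pool.Agent.T9h42.DD
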