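import Pool.Agent.T9h42.DD.Dual
import Pool.Agent.T9h42.GZ.AvgQ

/-!
# Descent: the traces of a global class are those of symbols, if they are locally
-/

set_option linter.unusedSectionVars false

namespace Pool.Agent.T9h42.Q

open MonoidAlgebra H970SH H842 Pool.Agent.Y69 Pool.Agent.Y69.StepC Pool.Agent.Y778.NK
  Pool.Agent.T9h42

noncomputable section

section words

variable {F : Type} [Field F] [CharZero F] {G : Type} [Group G]

/-- the traces of an element of `K₁(F[G])` -/
theorem exists_words (b : K1 (MonoidAlgebra F G)) : ∃ (J : Type) (_ : Fintype J) (t : J → F)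
    (E : Finset G) (w : G → J → G), (∀ g j, w g j * g = g * w g j) ∧
    (∀ (g : G) (χ : G → ℤ) (hχ : AddOnC g χ), Tr F hχ b = ∑ j, t j * ((χ (w g j) : ℤ) : F)) ∧
    (∀ (c : G) (χ : G → ℤ) (hχ : AddOnC c χ), Tr F hχ b ≠ 0 → ∃ g ∈ E, IsConj c g) := by
  classical
  obtain ⟨n, A, rfl⟩ := K1_exists b
  let S : Finset G := spt A.val ∪ spt (A⁻¹).val
  let t : S × S → F := fun d => (cf (A⁻¹).val d.1 * cf A.val d.2).trace
  have htr : ∀ (c : G) (χ : G → ℤ) (hχ : AddOnC c χ), Tr F hχ (cl A) =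
      ∑ d : S × S, t d * ((cocf c χ (d.1 : G) d.2 : ℤ) : F) := by
    intro c χ hχ
    rw [Tr_cl, prg_eq _ (A⁻¹).val A.val S Finset.subset_union_left Finset.subset_union_right]
    rfl
  let w : G → S × S → G := fun g d => if IsConj g ((d.1 : G) * d.2) then
    (sel g ((d.2 : G) * d.1))⁻¹ * d.2 * sel g ((d.1 : G) * d.2) else 1
  refine ⟨S × S, inferInstance, t, Finset.univ.image fun d : S × S => (d.1 : G) * d.2, w,
    ?_, ?_, ?_⟩
  · intro g d
    show (if IsConj _ ((d.1 : G) * d.2) then _ else 1) * _ =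
      _ * (if IsConj _ ((d.1 : G) * d.2) then _ else 1)
    split_ifs with h
    · exact sel_word (isSel_sel _) h
    · group
  · intro g χ hχ
    rw [htr]
    refine Finset.sum_congr rfl fun d _ => ?_
    congr 2
    unfold cocf
    show _ = χ (if IsConj g ((d.1 : G) * d.2) then _ else 1)
    split_ifs with h
    · rfl
    · rw [Pool.Agent.T9h42.AddOnC.one hχ]
  · intro c χ hχ h
    rw [htr] at h
    obtain ⟨d, _, hd⟩ := Finset.exists_ne_zero_of_sum_ne_zero h
    refine ⟨(d.1 : G) * d.2, Finset.mem_image.2 ⟨d, Finset.mem_univ _, rfl⟩, ?_⟩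
    by_contra hc
    apply hd
    unfold cocf
    rw [if_neg hc, Int.cast_zero, mul_zero]

end words

section one

variable {F : Type} [Field F] [CharZero F] {G : Type} [Group G]

theorem kk_card {C : Type} [CommGroup C] [Fintype C] (φ : C →* G) (hφ : Function.Injective φ)
    {g : G} (hr : ∀ y, y ∈ Subgroup.zpowers g ↔ ∃ c, φ c = y) (c : G)
    [DecidablePred fun y : C => Subgroup.zpowers (φ y) = Subgroup.zpowers g ∧ IsConj c (φ y)] :
    kk g c = (Finset.univ.filter fun y : C =>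
      Subgroup.zpowers (φ y) = Subgroup.zpowers g ∧ IsConj c (φ y)).card := by
  classical
  unfold kk
  have e5 : {h : G | Subgroup.zpowers h = Subgroup.zpowers g ∧ IsConj c h} =
      ((Finset.univ.filter fun y : C =>
        Subgroup.zpowers (φ y) = Subgroup.zpowers g ∧ IsConj c (φ y)).image φ : Finset G) := by
    ext h
    rw [Finset.coe_image]
    constructor
    · rintro ⟨h3, h4⟩
      obtain ⟨y, hy⟩ := (hr h).1 (by rw [← h3]; exact Subgroup.mem_zpowers h)
      refine ⟨y, ?_, hy⟩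
      rw [Finset.mem_coe, Finset.mem_filter, hy]
      exact ⟨Finset.mem_univ _, h3, h4⟩
    · rintro ⟨y, hy, rfl⟩
      rw [Finset.mem_coe, Finset.mem_filter] at hy
      exact hy.2
  rw [e5, Set.ncard_coe_finset, Finset.card_image_of_injective _ hφ]

theorem gen_iff {C : Type} [CommGroup C] (φ : C →* G) (hφ : Function.Injective φ)
    {g : G} (hr : ∀ y, y ∈ Subgroup.zpowers g ↔ ∃ c, φ c = y) (y : C) :
    Subgroup.zpowers y = ⊤ ↔ Subgroup.zpowers (φ y) = Subgroup.zpowers g := by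
  have e1 : Subgroup.zpowers (φ y) = (Subgroup.zpowers y).map φ := by
    rw [MonoidHom.map_zpowers]
  have e2 : Subgroup.zpowers g = (⊤ : Subgroup C).map φ := by
    ext x
    rw [hr, Subgroup.mem_map]
    exact ⟨fun ⟨c, hc⟩ => ⟨c, Subgroup.mem_top c, hc⟩, fun ⟨c, _, hc⟩ => ⟨c, hc⟩⟩
  rw [e1, e2]
  exact ⟨fun h => by rw [h], fun h => Subgroup.map_injective hφ h⟩

/-- descent for one cyclic subgroup -/
theorem desc_gen (b : K1 (MonoidAlgebra F G)) {J : Type} [Fintype J] (t : J → F) (w : G → J → G)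
    (hw : ∀ g j, w g j * g = g * w g j)
    (ht : ∀ (g : G) (χ : G → ℤ) (hχ : AddOnC g χ), Tr F hχ b = ∑ j, t j * ((χ (w g j) : ℤ) : F))
    {K : Type} [Field K] [CharZero K] (θ : F →+* K) (y : ZK K G) {g : G}
    (hy : ∀ (c : G) (χ : G → ℤ) (hχ : AddOnC c χ), Subgroup.zpowers c = Subgroup.zpowers g →
      Tr K hχ (btG K G y) = θ (Tr F hχ b))
    {C : Type} [CommGroup C] [Finite C] (φ : C →* G) (hφ : Function.Injective φ)
    (hr : ∀ y, y ∈ Subgroup.zpowers g ↔ ∃ c, φ c = y) :
    ∃ (M : ℕ) (V : ZK F G), 0 < M ∧ ∀ (c : G) (χ : G → ℤ) (hχ : AddOnC c χ),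
      Tr F hχ (btG F G V) = ((M * kk g c : ℕ) : F) * Tr F hχ b := by
  classical
  have := Fintype.ofFinite C
  have hgen := gen_iff φ hφ hr
  obtain ⟨m, hm, N, X, hX⟩ := ZK_mem y
  let T : (Cz (rg φ).1 →* Multiplicative ℤ) → C → F := fun χ h =>
    if hh : Subgroup.zpowers h = ⊤ then Tr F (ext0_add φ χ hh) b else 0
  have hT : ∀ χ h (hh : Subgroup.zpowers h = ⊤), T χ h = Tr F (ext0_add φ χ hh) b := fun χ h hh =>
    dif_pos hh
  have hT0 : ∀ χ h, Subgroup.zpowers h ≠ ⊤ → T χ h = 0 := fun χ h hh => dif_neg hh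
  let f : (Cz (rg φ).1 →* Multiplicative ℤ) → MonoidAlgebra F C := fun χ =>
    ∑ h, single h ((m : F) * T χ h)
  have hf : ∀ χ h, (f χ).coeff h = m * T χ h := by
    intro χ h
    show (∑ h, single h ((m : F) * T χ h) : MonoidAlgebra F C).coeff h = _
    rw [coeff_sum, Finsupp.finsetSum_apply, Finset.sum_eq_single h]
    · rw [coeff_single, Finsupp.single_eq_same]
    · intro h' _ hne
      rw [coeff_single, Finsupp.single_eq_of_ne (Ne.symm hne)]
    · intro h1
      exact absurd (Finset.mem_univ h) h1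
  have hfH : ∀ χ, f χ ∈ Hn (MonoidAlgebra F C) := by
    intro χ
    choose u hu0 hu using fun i : Fin N => trc_Hn (X i) φ hφ χ
    apply Pool.Agent.T9h42.DD.Hn_desc (mapRingHom C θ)
    · exact MonoidAlgebra.map_injective (θ : F →+ K) θ.injective
    have h1 : mapRingHom C θ (f χ) = (∑ i, u i : Hn (MonoidAlgebra K C)).1 := by
      apply coeff_injective
      ext h
      have h2 : (mapRingHom C θ (f χ)).coeff h = θ ((f χ).coeff h) := by simp
      rw [h2, hf, AddSubgroup.val_finsetSum, coeff_sum, Finsupp.finsetSum_apply]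
      by_cases hh : Subgroup.zpowers h = ⊤
      · rw [hT χ h hh, map_mul, map_natCast, ← hy (φ h) _ (ext0_add φ χ hh) ((hgen h).1 hh),
          Finset.sum_congr rfl fun i _ => hu i h hh, ← tr_sum Finset.univ X (ext0_add φ χ hh), ← hX,
          map_nsmul, map_nsmul, nsmul_eq_mul]
      · rw [hT0 χ h hh, mul_zero, map_zero]
        exact (Finset.sum_eq_zero fun i _ => hu0 i h hh).symm
    rw [h1]
    exact (∑ i, u i : Hn (MonoidAlgebra K C)).2
  -- the words
  have hwC : ∀ h : C, Subgroup.zpowers h = ⊤ → ∀ j, w (φ h) j ∈ Cz (rg φ).1 := by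
    intro h hh j
    apply mem_Cz
    intro c
    have hc : c ∈ Subgroup.zpowers h := by rw [hh]; exact Subgroup.mem_top _
    obtain ⟨n, rfl⟩ := Subgroup.mem_zpowers_iff.1 hc
    rw [map_zpow]
    exact (Commute.zpow_right (show Commute (w (φ h) j) (φ h) from hw _ _) n)
  let W : C × J → Cz (rg φ).1 := fun i =>
    if hh : Subgroup.zpowers i.1 = ⊤ then ⟨w (φ i.1) i.2, hwC i.1 hh i.2⟩ else 1
  have hW : ∀ h j (hh : Subgroup.zpowers h = ⊤), W (h, j) = ⟨w (φ h) j, hwC h hh j⟩ :=
    fun h j hh => dif_pos hh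
  have hTW : ∀ χ h, Subgroup.zpowers h = ⊤ →
      T χ h = ∑ j, t j * ((Multiplicative.toAdd (χ (W (h, j))) : ℤ) : F) := by
    intro χ h hh
    rw [hT χ h hh, ht]
    refine Finset.sum_congr rfl fun j _ => ?_
    congr 2
    unfold ext0
    rw [dif_pos (hwC h hh j), hW h j hh]
  obtain ⟨D, ρ, hD, hρ⟩ := Pool.Agent.T9h42.DD.dual_hom (Finset.univ : Finset (C × J)) W
  have hdual : ∀ χ h, (D : F) * T χ h =
      ∑ i, T (ρ i) h * ((Multiplicative.toAdd (χ (W i)) : ℤ) : F) := by
    intro χ h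
    by_cases hh : Subgroup.zpowers h = ⊤
    · rw [hTW χ h hh, Finset.mul_sum]
      have h1 : ∀ j, (D : F) * (t j * ((Multiplicative.toAdd (χ (W (h, j))) : ℤ) : F)) =
          ∑ i, t j * ((Multiplicative.toAdd (ρ i (W (h, j))) : ℤ) : F) *
            ((Multiplicative.toAdd (χ (W i)) : ℤ) : F) := by
        intro j
        have h2 := hρ χ (h, j) (Finset.mem_univ _)
        have h3 := congrArg (fun z : ℤ => (z : F)) h2
        simp only [Int.cast_mul, Int.cast_sum] at h3
        rw [mul_left_comm, h3, Finset.mul_sum]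
        exact Finset.sum_congr rfl fun i _ => (mul_assoc _ _ _).symm
      rw [Finset.sum_congr rfl fun j _ => h1 j, Finset.sum_comm]
      refine Finset.sum_congr rfl fun i _ => ?_
      rw [hTW (ρ i) h hh, Finset.sum_mul]
    · rw [hT0 χ h hh, mul_zero]
      refine (Finset.sum_eq_zero fun i _ => ?_).symm
      rw [hT0 _ h hh, zero_mul]
  have hWc : ∀ i c, (W i : G) * φ c = φ c * (W i : G) := by
    intro i c
    exact (Subgroup.mem_centralizer_iff.1 (W i).2 (φ c) ⟨c, rfl⟩).symm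
  let V0 : ZK F G := ∑ i, sz F φ (W i : G) (hWc i) (kap (ma_tf tfF) ⟨f (ρ i), hfH (ρ i)⟩)
  have hV0 : ∀ (c : G) (χ : G → ℤ) (hχ : AddOnC c χ),
      Tr F hχ (btG F G V0) = (m : F) * D * kk g c * Tr F hχ b := by
    intro c χ hχ
    have h1 : Tr F hχ (btG F G V0) = ∑ i, ∑ y : C, (m : F) * T (ρ i) y *
        cocf c (fun g => ((χ g : ℤ) : F)) (φ y * (W i : G)⁻¹) (W i) := by
      show Tr F hχ (btG F G (∑ i, _)) = _
      rw [map_sum, map_sum]
      refine Finset.sum_congr rfl fun i _ => ?_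
      rw [btG_sz, Tr_sz]
      refine Finset.sum_congr rfl fun y _ => ?_
      rw [bb_kap tfF, ← hf]
    rw [h1, Finset.sum_comm]
    have h2 : ∀ y : C, ∑ i, (m : F) * T (ρ i) y *
        cocf c (fun g => ((χ g : ℤ) : F)) (φ y * (W i : G)⁻¹) (W i) =
        if Subgroup.zpowers (φ y) = Subgroup.zpowers g ∧ IsConj c (φ y) then
          (m : F) * D * Tr F hχ b else 0 := by
      intro y
      by_cases hy1 : Subgroup.zpowers y = ⊤
      · by_cases hc : IsConj c (φ y)
        · rw [if_pos ⟨(hgen y).1 hy1, hc⟩]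
          have hs := sel_spec hc
          have hχy : AddOnC (φ y) (fun x => χ ((sel c (φ y))⁻¹ * x * sel c (φ y))) :=
            AddOnC.cj hχ hs
          have h5 := Tr_conj hχ hχy (sel c (φ y)) hs.symm (fun _ => rfl) b
          have hcen : ∀ a : Cz (rg φ).1, (a : G) * φ y = φ y * (a : G) := fun a =>
            (Subgroup.mem_centralizer_iff.1 a.2 (φ y) ⟨y, rfl⟩).symm
          let χ' : Cz (rg φ).1 →* Multiplicative ℤ :=
            { toFun := fun a => Multiplicative.ofAdd (χ ((sel c (φ y))⁻¹ * (a : G) * sel c (φ y)))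
              map_one' := by
                rw [Subgroup.coe_one, Pool.Agent.T9h42.AddOnC.one hχy]
                rfl
              map_mul' := fun a a' => by
                rw [Subgroup.coe_mul]
                exact congrArg Multiplicative.ofAdd (hχy a a' (hcen a) (hcen a')) }
          have h6 : T χ' y = Tr F hχ b := by
            rw [hTW χ' y hy1, ← h5, ht]
            refine Finset.sum_congr rfl fun j _ => ?_
            rw [hW y j hy1]
            rfl
          have h7 := hdual χ' y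
          rw [h6] at h7
          rw [mul_assoc, h7, Finset.mul_sum]
          refine Finset.sum_congr rfl fun i _ => ?_
          rw [cocf_val _ _ _ _ (hWc i y), if_pos hc, mul_assoc]
          rfl
        · rw [if_neg fun h => hc h.2]
          refine Finset.sum_eq_zero fun i _ => ?_
          rw [cocf_val _ _ _ _ (hWc i y), if_neg hc, mul_zero]
      · rw [if_neg fun h => hy1 ((hgen y).2 h.1)]
        refine Finset.sum_eq_zero fun i _ => ?_
        rw [hT0 _ y hy1, mul_zero, zero_mul]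
    rw [Finset.sum_congr rfl fun y _ => h2 y, ← Finset.sum_filter, Finset.sum_const,
      nsmul_eq_mul, kk_card φ hφ hr c]
    ring
  refine ⟨m * D.natAbs, D.sign • V0, Nat.mul_pos hm (Int.natAbs_pos.2 hD), ?_⟩
  intro c χ hχ
  rw [map_zsmul, map_zsmul, hV0, zsmul_eq_mul]
  have h8 : ((D.sign : ℤ) : F) * D = (D.natAbs : F) := by
    rw [← Int.cast_mul, Int.sign_mul_self_eq_natAbs, Int.cast_natCast]
  push_cast
  rw [← h8]
  ring

end one

section all

variable {F : Type} [Field F] [CharZero F] {G : Type} [Group G]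

/-- **Descent.** -/
theorem descent (b : K1 (MonoidAlgebra F G)) {I : Type} (K : I → Type) [∀ i, Field (K i)]
    [∀ i, CharZero (K i)] (θ : ∀ i, F →+* K i) (y : ∀ i, ZK (K i) G) (sing : I → ℕ → Prop)
    (hy : ∀ (i : I) (c : G) (χ : G → ℤ) (hχ : AddOnC c χ), 0 < orderOf c → sing i (orderOf c) →
      Tr (K i) hχ (btG (K i) G (y i)) = θ i (Tr F hχ b)) :
    ∃ (M : ℕ) (V : ZK F G), 0 < M ∧ ∀ (c : G) (χ : G → ℤ) (hχ : AddOnC c χ), 0 < orderOf c →
      (∃ i, sing i (orderOf c)) → Tr F hχ (btG F G V) = M * Tr F hχ b := by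
  classical
  obtain ⟨J, _, t, E0, w, hw, ht, hE0⟩ := exists_words b
  let E : Finset G := E0.filter fun g => 0 < orderOf g ∧ ∃ i, sing i (orderOf g)
  have hEo : ∀ g ∈ E, 0 < orderOf g := fun g hg => (Finset.mem_filter.1 hg).2.1
  -- the symbols
  have hex : ∀ g ∈ E, ∃ (M : ℕ) (v : ZK F G), 0 < M ∧
      ∀ (c : G) (χ : G → ℤ) (hχ : AddOnC c χ),
        Tr F hχ (btG F G v) = ((M * kk g c : ℕ) : F) * Tr F hχ b := by
    intro g hg
    obtain ⟨i, hi⟩ := (Finset.mem_filter.1 hg).2.2
    have hfin : Finite (Subgroup.zpowers g) := Nat.finite_of_card_ne_zero (by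
      rw [Nat.card_zpowers]; exact (hEo g hg).ne')
    let _ : CommGroup (Subgroup.zpowers g) := (inferInstance : IsCyclic _).commGroup
    refine desc_gen b t w hw ht (θ i) (y i) (g := g) ?_ (Subgroup.zpowers g).subtype
      Subtype.val_injective (fun y => ⟨fun hy => ⟨⟨y, hy⟩, rfl⟩, fun ⟨c, hc⟩ => hc ▸ c.2⟩)
    intro c χ hχ hc
    have ho : orderOf c = orderOf g := by rw [← Nat.card_zpowers, ← Nat.card_zpowers, hc]
    exact hy i c χ hχ (by rw [ho]; exact hEo g hg) (by rw [ho]; exact hi)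
  choose! M v hM hT using hex
  let K : G → ℕ := fun c => ∑ g ∈ E, kk g c
  have hK : ∀ g ∈ E, 0 < K g := by
    intro g hg
    refine lt_of_lt_of_le (kk_self (hEo g hg)) ?_
    exact Finset.single_le_sum (f := fun g' => kk g' g) (fun _ _ => Nat.zero_le _) hg
  let Q : ℕ := ∏ g ∈ E, M g * K g
  have hQ : 0 < Q := Finset.prod_pos fun g hg => Nat.mul_pos (hM g hg) (hK g hg)
  refine ⟨Q, ∑ g ∈ E, (Q / (M g * K g)) • v g, hQ, ?_⟩
  intro c χ hχ hc hsc
  rw [map_sum, map_sum]
  by_cases h0 : Tr F hχ b = 0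
  · rw [h0, mul_zero]
    refine Finset.sum_eq_zero fun g hg => ?_
    rw [map_nsmul, map_nsmul, hT g hg c χ hχ, h0, mul_zero, smul_zero]
  have hKc : 0 < K c := by
    obtain ⟨g, hg, hcg⟩ := hE0 c χ hχ h0
    have ho : orderOf g = orderOf c := by
      obtain ⟨s, rfl⟩ := isConj_iff.1 hcg
      exact (MulAut.conj s).orderOf_eq c
    have hgE : g ∈ E := Finset.mem_filter.2 ⟨hg, by rw [ho]; exact ⟨hc, hsc⟩⟩
    have h1 : 0 < kk g c := by
      rw [kk_conj hcg]
      exact kk_self (hEo g hgE)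
    exact lt_of_lt_of_le h1 (Finset.single_le_sum (f := fun g' => kk g' c)
      (fun _ _ => Nat.zero_le _) hgE)
  have h1 : ∀ g ∈ E, Tr F hχ (btG F G ((Q / (M g * K g)) • v g)) =
      (Q : F) * Tr F hχ b * ((kk g c : F) / K c) := by
    intro g hg
    rw [map_nsmul, map_nsmul, hT g hg c χ hχ, nsmul_eq_mul]
    by_cases hk : kk g c = 0
    · rw [hk]
      simp
    have hKg : K g = K c := by
      obtain ⟨y, hy, hcy⟩ := kk_ne hk
      refine Finset.sum_congr rfl fun g' hg' => ?_
      rw [kk_conj hcy]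
      exact (kk_gen (hEo g hg) (hEo g' hg') hy).symm
    have hd : M g * K g ∣ Q := Finset.dvd_prod_of_mem (fun g => M g * K g) hg
    rw [Nat.cast_div hd (by
      have := Nat.mul_pos (hM g hg) (hK g hg)
      exact_mod_cast this.ne'), hKg]
    have h3 : (K c : F) ≠ 0 := by exact_mod_cast hKc.ne'
    have h4 : (M g : F) ≠ 0 := by exact_mod_cast (hM g hg).ne'
    push_cast
    field_simp
  rw [Finset.sum_congr rfl h1, ← Finset.mul_sum, ← Finset.sum_div, ← Nat.cast_sum]
  have h3 : (K c : F) ≠ 0 := by exact_mod_cast hKc.ne'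
  have h5 : (((∑ g ∈ E, kk g c : ℕ) : F) / K c) = 1 := div_self h3
  rw [h5, mul_one]

end all

end

end Pool.Agent.T9h42.Q
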