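import Pool.Agent.T9h42.DD.Desc
import Pool.Agent.T9h42.GZ.BtQ

/-!
# Dual bases up to a factor, and the traces of symbols on a fixed cyclic group
-/

set_option linter.unusedSectionVars false

namespace Pool.Agent.T9h42.DD

noncomputable section

/-- Dual bases of lattices. -/
theorem dual_lat {J : Type} (Λ : AddSubgroup (J → ℤ)) (s : Finset J) :
    ∃ (D : ℤ) (ρ : J → J → ℤ), D ≠ 0 ∧ (∀ i, ρ i ∈ Λ) ∧
      ∀ x ∈ Λ, ∀ l ∈ s, D * x l = ∑ i ∈ s, ρ i l * x i := by
  classical
  induction s using Finset.induction_on with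
  | empty => exact ⟨1, 0, one_ne_zero, fun _ => Λ.zero_mem, fun _ _ l hl => absurd hl (by simp)⟩
  | insert a s ha ih =>
    obtain ⟨D, ρ, hD, hρ, h⟩ := ih
    by_cases hA : ∀ x ∈ Λ, D * x a = ∑ i ∈ s, ρ i a * x i
    · refine ⟨D, Function.update ρ a 0, hD, ?_, ?_⟩
      · intro i
        by_cases hi : i = a
        · subst hi
          rw [Function.update_self]
          exact Λ.zero_mem
        · rw [Function.update_of_ne hi]
          exact hρ i
      · intro x hx l hl
        rw [Finset.sum_insert ha, Function.update_self, Pi.zero_apply, zero_mul, zero_add]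
        have h1 : ∑ i ∈ s, Function.update ρ a 0 i l * x i = ∑ i ∈ s, ρ i l * x i := by
          refine Finset.sum_congr rfl fun i hi => ?_
          rw [Function.update_of_ne (fun h2 : i = a => ha (h2 ▸ hi))]
        rw [h1]
        rcases Finset.mem_insert.1 hl with rfl | hl
        · exact hA x hx
        · exact h x hx l hl
    · push Not at hA
      obtain ⟨y, hy, hne⟩ := hA
      let δ : ℤ := D * y a - ∑ i ∈ s, ρ i a * y i
      have hδ : δ ≠ 0 := sub_ne_zero.2 hne
      let c : J → ℤ := D • y - ∑ i ∈ s, y i • ρ i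
      have hc : c ∈ Λ := Λ.sub_mem (Λ.zsmul_mem hy D)
        (Λ.sum_mem fun i _ => Λ.zsmul_mem (hρ i) _)
      have hcv : ∀ l, c l = D * y l - ∑ i ∈ s, ρ i l * y i := by
        intro l
        show (D • y - ∑ i ∈ s, y i • ρ i) l = _
        rw [Pi.sub_apply, Pi.smul_apply, Finset.sum_apply, smul_eq_mul]
        congr 1
        refine Finset.sum_congr rfl fun i _ => ?_
        rw [Pi.smul_apply, smul_eq_mul, mul_comm]
      have hcs : ∀ l ∈ s, c l = 0 := by
        intro l hl
        rw [hcv, h y hy l hl, sub_self]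
      have hca : c a = δ := hcv a
      refine ⟨δ * D, Function.update (fun i => δ • ρ i - ρ i a • c) a (D • c),
        mul_ne_zero hδ hD, ?_, ?_⟩
      · intro i
        by_cases hi : i = a
        · subst hi
          rw [Function.update_self]
          exact Λ.zsmul_mem hc D
        · rw [Function.update_of_ne hi]
          exact Λ.sub_mem (Λ.zsmul_mem (hρ i) _) (Λ.zsmul_mem hc _)
      · intro x hx l hl
        rw [Finset.sum_insert ha, Function.update_self]
        have h1 : ∑ i ∈ s, Function.update (fun i => δ • ρ i - ρ i a • c) a (D • c) i l * x i =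
            δ * ∑ i ∈ s, ρ i l * x i - c l * ∑ i ∈ s, ρ i a * x i := by
          rw [Finset.mul_sum, Finset.mul_sum, ← Finset.sum_sub_distrib]
          refine Finset.sum_congr rfl fun i hi => ?_
          rw [Function.update_of_ne (fun h2 : i = a => ha (h2 ▸ hi)), Pi.sub_apply, Pi.smul_apply,
            Pi.smul_apply, smul_eq_mul, smul_eq_mul]
          ring
        rw [h1, Pi.smul_apply, smul_eq_mul]
        rcases Finset.mem_insert.1 hl with rfl | hl
        · rw [hca]
          ring
        · rw [hcs l hl, ← h x hx l hl]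
          ring

/-- Dual homomorphisms. -/
theorem dual_hom {Γ J : Type} [Group Γ] (s : Finset J) (w : J → Γ) :
    ∃ (D : ℤ) (ρ : J → (Γ →* Multiplicative ℤ)), D ≠ 0 ∧
      ∀ χ : Γ →* Multiplicative ℤ, ∀ l ∈ s, D * Multiplicative.toAdd (χ (w l)) =
        ∑ i ∈ s, Multiplicative.toAdd (ρ i (w l)) * Multiplicative.toAdd (χ (w i)) := by
  let ev : Additive (Γ →* Multiplicative ℤ) →+ (J → ℤ) :=
    { toFun := fun χ l => Multiplicative.toAdd ((Additive.toMul χ) (w l))
      map_zero' := rfl
      map_add' := fun _ _ => rfl }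
  obtain ⟨D, ρ, hD, hρ, h⟩ := dual_lat ev.range s
  choose χ hχ using hρ
  refine ⟨D, fun i => Additive.toMul (χ i), hD, fun ψ l hl => ?_⟩
  have h1 := h (ev (Additive.ofMul ψ)) ⟨_, rfl⟩ l hl
  refine h1.trans (Finset.sum_congr rfl fun i _ => ?_)
  rw [← hχ i]
  rfl

end

end Pool.Agent.T9h42.DD

namespace Pool.Agent.T9h42.Q

open MonoidAlgebra Pool.Agent.Y69 Pool.Agent.Y69.StepC Pool.Agent.Y778.NK

noncomputable section

section tau

variable {K G : Type} [Field K] [CharZero K] [Group G]

/-- The traces of a symbol on a cyclic group as coefficients of a combination of idempotents. -/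
theorem tau_Hn {C : Type} [CommGroup C] [Finite C] (φ : C →* G)
    (hφ : Function.Injective φ) (v : G) (hv : ∀ c, v * φ c = φ c * v)
    (x : Hn (MonoidAlgebra K C)) (good : ∀ c, Subgroup.zpowers c ≠ ⊤ → x.1.coeff c = 0)
    (χ : Cz (rg φ).1 →* Multiplicative ℤ) :
    ∃ u : Hn (MonoidAlgebra K C), (∀ h, Subgroup.zpowers h ≠ ⊤ → u.1.coeff h = 0) ∧
      ∀ h, Subgroup.zpowers h = ⊤ →
        u.1.coeff h = tau (dF K) (φ h) (fun g => (dF K).j (ext0 φ χ g)) φ v x := by
  classical
  have := Fintype.ofFinite C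
  have : Fintype (C ≃* C) := Fintype.ofFinite _
  let Wt : Type := {w : C ≃* C // ∃ g : G, ∀ c, φ (w c) = g * φ c * g⁻¹}
  have : Fintype Wt := Fintype.ofFinite _
  choose g hg using fun w : Wt => w.2
  let x' : Wt → Hn (MonoidAlgebra K C) := fun w =>
    Hmap (mapDomainRingHom K w.1.toMonoidHom) x
  have hwinv : ∀ (w : Wt) (c : C), φ c = g w * φ (w.1.symm c) * (g w)⁻¹ := by
    intro w c
    have := hg w (w.1.symm c)
    rwa [MulEquiv.apply_symm_apply] at this
  have hx'c : ∀ (w : Wt) (c : C), (x' w).1.coeff c = x.1.coeff (w.1.symm c) := by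
    intro w c
    have h1 := coeff_map (R := K) w.1.toMonoidHom w.1.injective x.1 (w.1.symm c)
    rw [← h1]
    show _ = (mapDomainRingHom K w.1.toMonoidHom x.1).coeff (w.1 (w.1.symm c))
    rw [MulEquiv.apply_symm_apply]
    rfl
  let F : MonoidAlgebra K C → C → K := fun y c => y.coeff c
  have hsm : ∀ (n : ℤ) (y : MonoidAlgebra K C) (c : C), (n • y).coeff c = n • y.coeff c := by
    intro n y c
    let E : MonoidAlgebra K C →+ K := AddMonoidHom.mk' (fun x => x.coeff c) fun x y => by
      rw [coeff_add, Finsupp.add_apply]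
    exact map_zsmul E n y
  have hcu : ∀ h, (∑ w : Wt, ext0 φ χ (g w * v * (g w)⁻¹) • (x' w)).1.coeff h =
      ∑ w : Wt, (x' w).1.coeff h * (dF K).j (ext0 φ χ (g w * v * (g w)⁻¹)) := by
    intro h
    rw [AddSubgroup.val_finsetSum, coeff_sum, Finsupp.finsetSum_apply]
    refine Finset.sum_congr rfl fun w _ => ?_
    have h1 : (ext0 φ χ (g w * v * (g w)⁻¹) • (x' w)).1 =
        ext0 φ χ (g w * v * (g w)⁻¹) • (x' w).1 := rfl
    rw [h1, hsm, zsmul_eq_mul, mul_comm]
    rfl
  refine ⟨∑ w : Wt, ext0 φ χ (g w * v * (g w)⁻¹) • (x' w), ?_, ?_⟩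
  · intro h hh
    rw [hcu]
    refine Finset.sum_eq_zero fun w _ => ?_
    rw [hx'c, good, zero_mul]
    intro h2
    apply hh
    have h3 := Theory.zpowers_map_top w.1.symm (c := h)
    by_contra h4
    exact h4 (by
      have h5 : Subgroup.zpowers (w.1.symm h) = (Subgroup.zpowers h).map w.1.symm.toMonoidHom := by
        rw [MonoidHom.map_zpowers]
        rfl
      rw [h5] at h2
      rw [eq_top_iff]
      intro y _
      have h6 : w.1.symm y ∈ (Subgroup.zpowers h).map w.1.symm.toMonoidHom := by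
        rw [h2]
        exact Subgroup.mem_top _
      obtain ⟨y', hy', h7⟩ := h6
      have h8 : y' = y := w.1.symm.injective h7
      rw [← h8]
      exact hy')
  · intro h hh
    rw [hcu, tau_eq]
    have hχ0 := ext0_add φ χ hh
    have hχ : AddOnC (φ h) (fun g => (dF K).j (ext0 φ χ g)) := by
      intro a b ha hb
      show (dF K).j _ = (dF K).j _ + (dF K).j _
      rw [hχ0 a b ha hb, map_add]
    have h2 : ∀ y, (dF K).i (x.1.coeff y) *
        cocf (φ h) (fun g => (dF K).j (ext0 φ χ g)) (φ y * v⁻¹) v =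
        if IsConj (φ h) (φ y) then x.1.coeff y *
          (dF K).j (ext0 φ χ ((sel (φ h) (φ y))⁻¹ * v * sel (φ h) (φ y))) else 0 := by
      intro y
      rw [cocf_val _ _ _ _ (hv y)]
      split_ifs
      · rfl
      · rw [mul_zero]
    rw [Finset.sum_congr rfl fun y _ => h2 y, ← Finset.sum_filter]
    refine Finset.sum_bij (fun w _ => w.1.symm h) ?_ ?_ ?_ ?_
    · intro w _
      rw [Finset.mem_filter]
      exact ⟨Finset.mem_univ _, (isConj_iff.2 ⟨g w, (hwinv w h).symm⟩).symm⟩
    · intro w _ w' _ hww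
      apply Subtype.ext
      have h8 : w.1.symm = w'.1.symm := by
        ext z
        have hz : z ∈ Subgroup.zpowers h := by rw [hh]; exact Subgroup.mem_top _
        obtain ⟨n, rfl⟩ := Subgroup.mem_zpowers_iff.1 hz
        rw [map_zpow, map_zpow, hww]
      exact congrArg MulEquiv.symm h8
    · intro y hy
      obtain ⟨s, hs⟩ := isConj_iff.1 (Finset.mem_filter.1 hy).2
      have ho : orderOf y = orderOf h := by
        rw [← orderOf_injective φ hφ y, ← orderOf_injective φ hφ h, ← hs]
        exact (MulAut.conj s).orderOf_eq (φ h)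
      have hcy : Subgroup.zpowers y = ⊤ := by
        rw [← Subgroup.card_eq_iff_eq_top, Nat.card_zpowers, ho, ← Nat.card_zpowers, hh]
        exact (Subgroup.card_eq_iff_eq_top _).2 rfl
      have hy' : ∀ z, z ∈ Subgroup.zpowers y := fun z => by rw [hcy]; exact Subgroup.mem_top z
      have hh' : ∀ z, z ∈ Subgroup.zpowers h := fun z => by rw [hh]; exact Subgroup.mem_top z
      let w : C ≃* C := mulEquivOfOrderOfEq hy' hh' ho
      have hwy : w y = h := mulEquivOfOrderOfEq_apply_gen hy' hh' ho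
      refine ⟨⟨w, s⁻¹, fun z => ?_⟩, Finset.mem_univ _, ?_⟩
      · obtain ⟨n, rfl⟩ := Subgroup.mem_zpowers_iff.1 (hy' z)
        rw [map_zpow, hwy, map_zpow, map_zpow, ← hs, ← conj_zpow]
        congr 1
        group
      · show w.symm h = y
        rw [← hwy, MulEquiv.symm_apply_apply]
    · intro w _
      show (x' w).1.coeff h * (dF K).j (ext0 φ χ (g w * v * (g w)⁻¹)) = _
      rw [hx'c]
      congr 1
      have hc : IsConj (φ h) (φ (w.1.symm h)) :=
        (isConj_iff.2 ⟨g w, (hwinv w h).symm⟩).symm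
      have h3 : (1 : G) * φ h * (1 : G)⁻¹ = g w * φ (w.1.symm h) * (g w)⁻¹ := by
        rw [← hwinv w h]; group
      have h4 := hχ.two (sel_spec hc) h3 (hv (w.1.symm h))
      refine Eq.trans ?_ h4
      show (dF K).j (ext0 φ χ (g w * v * (g w)⁻¹)) = _
      congr 2
      group

/-- The traces of an object on a fixed cyclic group. -/
theorem trc_Hn (X : ZObj K G) {C : Type} [CommGroup C] [Finite C] (φ : C →* G)
    (hφ : Function.Injective φ) (χ : Cz (rg φ).1 →* Multiplicative ℤ) :
    ∃ u : Hn (MonoidAlgebra K C), (∀ h, Subgroup.zpowers h ≠ ⊤ → u.1.coeff h = 0) ∧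
      ∀ h, Subgroup.zpowers h = ⊤ →
        u.1.coeff h = X.trc (dF K) (φ h) (fun g => (dF K).j (ext0 φ χ g)) := by
  classical
  by_cases hex : ∃ (f : X.C ≃* C) (g : G), ∀ y, φ (f y) = g * X.φ y * g⁻¹
  · obtain ⟨f, g, hfg⟩ := hex
    have hv : ∀ c, (g * X.z * g⁻¹) * φ c = φ c * (g * X.z * g⁻¹) := by
      intro c
      have h1 := hfg (f.symm c)
      rw [MulEquiv.apply_symm_apply] at h1
      have h2 := X.hz (f.symm c)
      rw [h1]
      calc g * X.z * g⁻¹ * (g * X.φ (f.symm c) * g⁻¹)
          = g * (X.z * X.φ (f.symm c)) * g⁻¹ := by group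
        _ = _ := by rw [h2]; group
    obtain ⟨u, h1, h2⟩ := tau_Hn φ hφ (g * X.z * g⁻¹) hv
      (Hmap (mapDomainRingHom K f.toMonoidHom) X.u) (by
        intro c hc
        show (mapDomainRingHom K f.toMonoidHom X.u.1).coeff c = 0
        have h1 := coeff_map (R := K) f.toMonoidHom f.injective X.u.1 (f.symm c)
        have h2 : f.toMonoidHom (f.symm c) = c := f.apply_symm_apply c
        rw [h2] at h1
        rw [h1]
        apply X.good
        apply Theory.zpowers_map_top f
        rwa [MulEquiv.apply_symm_apply]) χ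
    refine ⟨u, h1, fun h hh => ?_⟩
    rw [h2 h hh]
    have hχ0 := ext0_add φ χ hh
    have hχ : AddOnC (φ h) (fun g => (dF K).j (ext0 φ χ g)) := by
      intro a b ha hb
      show (dF K).j _ = (dF K).j _ + (dF K).j _
      rw [hχ0 a b ha hb, map_add]
    exact tau_conj (dF K) hχ φ X.φ f g hfg _ _ hv X.hz rfl _
  · refine ⟨0, fun h _ => rfl, fun h hh => ?_⟩
    by_contra hne
    have hne' : X.trc (dF K) (φ h) (fun g => (dF K).j (ext0 φ χ g)) ≠ 0 := fun h0 => hne h0.symm
    obtain ⟨y, hy, hcy⟩ := ZObj.trc_ne (dF K) hne'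
    apply hex
    obtain ⟨s, hs⟩ := isConj_iff.1 hcy.symm
    have ho : orderOf y = orderOf h := by
      rw [← orderOf_injective X.φ X.inj y, ← orderOf_injective φ hφ h, ← hs]
      exact ((MulAut.conj s).orderOf_eq (X.φ y)).symm
    have hy' : ∀ z, z ∈ Subgroup.zpowers y := fun z => by rw [hy]; exact Subgroup.mem_top z
    have hh' : ∀ z, z ∈ Subgroup.zpowers h := fun z => by rw [hh]; exact Subgroup.mem_top z
    let w : X.C ≃* C := mulEquivOfOrderOfEq hy' hh' ho
    have hwy : w y = h := mulEquivOfOrderOfEq_apply_gen hy' hh' ho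
    refine ⟨w, s, fun z => ?_⟩
    obtain ⟨n, rfl⟩ := Subgroup.mem_zpowers_iff.1 (hy' z)
    rw [map_zpow, hwy, map_zpow, map_zpow, ← hs, ← conj_zpow]

end tau

end

end Pool.Agent.T9h42.Q
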