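import Pool.Agent.T9h42.DP.Stm

/-!
# Definitions for the statements in the degrees zero and minus one for Dedekind domains
-/

namespace Pool.Agent.T9h42.KD

open MonoidAlgebra Pool.Agent.Y778.NK Pool.Agent.Y69.FJK Pool.Agent.T9h42
open Pool.Agent.Y69 (FinSub)
open IsDedekindDomain (HeightOneSpectrum)

noncomputable section

/-- A family of fields `K i` and commutative rings `A i` with homomorphisms `F → K i` and
`A i → K i`. -/
structure Places (F : Type) [Field F] where
  I : Type
  K : I → Type
  fK : ∀ i, Field (K i)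
  A : I → Type
  rA : ∀ i, CommRing (A i)
  toK : ∀ i, F →+* K i
  inK : ∀ i, A i →+* K i

attribute [instance] Places.fK Places.rA

/-- For a Dedekind domain `R` with field of fractions `F`: the `v`-adic completions `F_v` of `F` and
their rings of integers `R_v` (the completions of `R`), `v` the nonzero prime ideals of `R`. -/
def ded (R F : Type) [CommRing R] [IsDedekindDomain R] [Field F] [Algebra R F]
    [IsFractionRing R F] : Places F where
  I := HeightOneSpectrum R
  K v := v.adicCompletion F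
  fK _ := inferInstance
  A v := v.adicCompletionIntegers F
  rA _ := inferInstance
  toK v := algebraMap F (v.adicCompletion F)
  inK v := (v.adicCompletionIntegers F).subtype

/-- The map `K₀(k[H]) → K₀(l[H])` induced by `θ : k → l`. -/
def co0 {k l : Type} [CommRing k] [CommRing l] (θ : k →+* l) (H : Type) [Group H] :
    GK0 k H →+ GK0 l H := K0.map (mapRingHom H θ)

/-- The map `K₁(k[H]) → K₁(l[H])` induced by `θ : k → l`. -/
def co1 {k l : Type} [CommRing k] [CommRing l] (θ : k →+* l) (H : Type) [Group H] :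
    GK1 k H →+ GK1 l H := Pool.Agent.Y69.FJ.K1.map (mapRingHom H θ)

section zero

variable {F : Type} [Field F] (S : Places F)

/-- The direct sum of the groups `K₀(K i[H])`. -/
def Loc0 (H : Type) [Group H] : Type := Π₀ i : S.I, GK0 (S.K i) H

instance (H : Type) [Group H] : AddCommGroup (Loc0 S H) := DFinsupp.addCommGroup

variable {S} in
/-- The component at `i`. -/
def Loc0.at {H : Type} [Group H] (z : Loc0 S H) (i : S.I) : GK0 (S.K i) H :=
  (show Π₀ i : S.I, GK0 (S.K i) H from z) i

variable {S} in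
/-- There is an element `b` of `K₀(F[H])` such that `z_i - b` comes from `K₀(A i[H])` for all `i`. -/
def IsGlob0 {H : Type} [Group H] (z : Loc0 S H) : Prop :=
  ∃ b : GK0 F H, ∀ i, ∃ a : GK0 (S.A i) H, z.at i = co0 (S.toK i) H b + co0 (S.inK i) H a

/-- The subgroup of the families `z` with `IsGlob0 z`. -/
def Glob0 (H : Type) [Group H] : AddSubgroup (Loc0 S H) where
  carrier := {z | IsGlob0 z}
  zero_mem' := ⟨0, fun i => ⟨0, by rw [map_zero, map_zero, add_zero]; rfl⟩⟩
  add_mem' := by
    rintro z z' ⟨b, h⟩ ⟨b', h'⟩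
    refine ⟨b + b', fun i => ?_⟩
    obtain ⟨a, ha⟩ := h i
    obtain ⟨a', ha'⟩ := h' i
    have h1 : (z + z').at i = z.at i + z'.at i := rfl
    exact ⟨a + a', by rw [h1, ha, ha', map_add, map_add]; abel⟩
  neg_mem' := by
    rintro z ⟨b, h⟩
    refine ⟨-b, fun i => ?_⟩
    obtain ⟨a, ha⟩ := h i
    have h1 : (-z).at i = -z.at i := rfl
    exact ⟨-a, by rw [h1, ha, map_neg, map_neg]; abel⟩

/-- The cokernel of `K₀(F[H]) → ⨁ K₀(K i[H]) / K₀(A i[H])`. -/
def KM (H : Type) [Group H] : Type := Loc0 S H ⧸ Glob0 S H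

instance (H : Type) [Group H] : AddCommGroup (KM S H) :=
  QuotientAddGroup.Quotient.addCommGroup (Glob0 S H)

/-- The map `⨁ K₀(K i[G]) → ⨁ K₀(K i[H])` induced by a homomorphism `φ : G → H`. -/
def Loc0.map {G H : Type} [Group G] [Group H] (φ : G →* H) : Loc0 S G →+ Loc0 S H :=
  DFinsupp.mapRange.addMonoidHom fun i => (GK0.map φ : GK0 (S.K i) G →+ GK0 (S.K i) H)

theorem co0_map {k l : Type} [CommRing k] [CommRing l] (θ : k →+* l) {G H : Type} [Group G]
    [Group H] (φ : G →* H) (x : GK0 k G) : GK0.map φ (co0 θ G x) = co0 θ H (GK0.map φ x) := by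
  let q : FreeAbelianGroup (Σ n : ℕ, IdMat (MonoidAlgebra k G) n) →+ GK0 k G :=
    QuotientAddGroup.mk' (AddSubgroup.closure (K0Rel (MonoidAlgebra k G)))
  obtain ⟨y, rfl⟩ : ∃ y, q y = x := QuotientAddGroup.mk'_surjective _ x
  have h : ((GK0.map φ).comp (co0 θ G)).comp q = ((co0 θ H).comp (GK0.map φ)).comp q := by
    apply FreeAbelianGroup.lift.symm.injective
    funext y
    show K0.map (mapDomainRingHom l φ) (K0.map (mapRingHom G θ) (K0.mk y.2)) =
      K0.map (mapRingHom H θ) (K0.map (mapDomainRingHom k φ) (K0.mk y.2))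
    rw [K0.map_mk, K0.map_mk, K0.map_mk, K0.map_mk]
    have h2 : (mapDomainRingHom l φ).comp (mapRingHom G θ) =
        (mapRingHom H θ).comp (mapDomainRingHom k φ) := by
      apply RingHom.ext
      intro x
      induction x using MonoidAlgebra.induction_linear with
      | zero => simp
      | add x y hx hy => rw [map_add, hx, hy, map_add]
      | single h a => simp
    congr 1
    exact Subtype.ext (Matrix.ext fun a b => RingHom.congr_fun h2 (y.2.1 a b))
  exact DFunLike.congr_fun h y

theorem KM.map_aux {G H : Type} [Group G] [Group H] (φ : G →* H) :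
    Glob0 S G ≤ (Glob0 S H).comap (Loc0.map S φ) := by
  rintro z ⟨b, h⟩
  refine ⟨GK0.map φ b, fun i => ?_⟩
  obtain ⟨a, ha⟩ := h i
  refine ⟨GK0.map φ a, ?_⟩
  show GK0.map φ (z.at i) = _
  rw [ha, map_add, co0_map, co0_map]

/-- The map induced by a homomorphism of groups. -/
def KM.map {G H : Type} [Group G] [Group H] (φ : G →* H) : KM S G →+ KM S H :=
  QuotientAddGroup.map (Glob0 S G) (Glob0 S H) (Loc0.map S φ) (KM.map_aux S φ)

open Classical in
variable {S} in
/-- The class in `KM(S, H)` of the family with component `x` at `i` and all other components `0`. -/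
def KM.at {H : Type} [Group H] (i : S.I) (x : GK0 (S.K i) H) : KM S H :=
  QuotientAddGroup.mk' (Glob0 S H)
    (DFinsupp.single (β := fun i : S.I => GK0 (S.K i) H) i x : Loc0 S H)

end zero

section one

variable {F : Type} [Field F] (S : Places F) (G : Type) [Group G]

/-- The direct sum of the groups `K₁(K i[G])`. -/
def Loc1 : Type := Π₀ i : S.I, GK1 (S.K i) G

instance : AddCommGroup (Loc1 S G) := DFinsupp.addCommGroup

variable {S G} in
/-- The component at `i`. -/
def Loc1.at (z : Loc1 S G) (i : S.I) : GK1 (S.K i) G :=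
  (show Π₀ i : S.I, GK1 (S.K i) G from z) i

variable {S G} in
/-- There is an element `b` of `K₁(F[G])` such that `z_i - b` comes from `K₁(A i[G])` for all `i`. -/
def IsGlob1 (z : Loc1 S G) : Prop :=
  ∃ b : GK1 F G, ∀ i, ∃ a : GK1 (S.A i) G, z.at i = co1 (S.toK i) G b + co1 (S.inK i) G a

/-- The subgroup of the families `z` with `IsGlob1 z`. -/
def Glob1 : AddSubgroup (Loc1 S G) where
  carrier := {z | IsGlob1 z}
  zero_mem' := ⟨0, fun i => ⟨0, by rw [map_zero, map_zero, add_zero]; rfl⟩⟩
  add_mem' := by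
    rintro z z' ⟨b, h⟩ ⟨b', h'⟩
    refine ⟨b + b', fun i => ?_⟩
    obtain ⟨a, ha⟩ := h i
    obtain ⟨a', ha'⟩ := h' i
    have h1 : (z + z').at i = z.at i + z'.at i := rfl
    exact ⟨a + a', by rw [h1, ha, ha', map_add, map_add]; abel⟩
  neg_mem' := by
    rintro z ⟨b, h⟩
    refine ⟨-b, fun i => ?_⟩
    obtain ⟨a, ha⟩ := h i
    have h1 : (-z).at i = -z.at i := rfl
    exact ⟨-a, by rw [h1, ha, map_neg, map_neg]; abel⟩

/-- The cokernel of `K₁(F[G]) → ⨁ K₁(K i[G]) / K₁(A i[G])`. -/
def KO : Type := Loc1 S G ⧸ Glob1 S G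

instance : AddCommGroup (KO S G) := QuotientAddGroup.Quotient.addCommGroup (Glob1 S G)

open Classical in
variable {S G} in
/-- The class in `KO(S, G)` of the family with component `x` at `i` and all other components `0`. -/
def KO.at (i : S.I) (x : GK1 (S.K i) G) : KO S G :=
  QuotientAddGroup.mk' (Glob1 S G)
    (DFinsupp.single (β := fun i : S.I => GK1 (S.K i) G) i x : Loc1 S G)

end one

section sym

variable {F : Type} [Field F] (S : Places F) (G : Type) [Group G]

/-- The set of the symbols `[H, z, x]`, for `H` a finite subgroup of `G`, `z` in the centralizer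
of `H` and `x ∈ KM(S, H)`. -/
def MSym : Type := Σ H : FinSub G, Cz H.1 × KM S H.1

variable {S G} in
/-- The symbol `[H, z, x]` as an element of the free abelian group on the symbols. -/
def msym (H : FinSub G) (z : Cz H.1) (x : KM S H.1) : FreeAbelianGroup (MSym S G) :=
  FreeAbelianGroup.of ⟨H, z, x⟩

/-- The relations between the symbols: `[H, z, x]` is additive in `x` and in `z`, and
`[K, g z g⁻¹, φ(x)] = [H, z, x]` if `φ : H → K` is given by conjugation with `g` and `g z g⁻¹`
is in the centralizer of `K`. -/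
def MRel : Set (FreeAbelianGroup (MSym S G)) :=
  {w | (∃ (H : FinSub G) (z : Cz H.1) (x y : KM S H.1),
      w = msym H z (x + y) - (msym H z x + msym H z y)) ∨
    (∃ (H : FinSub G) (z z' : Cz H.1) (x : KM S H.1),
      w = msym H (z * z') x - (msym H z x + msym H z' x)) ∨
    ∃ (H K : FinSub G) (g : G) (φ : H.1 →* K.1) (z : Cz H.1) (z' : Cz K.1) (x : KM S H.1),
      (∀ h : H.1, (φ h : G) = g * h * g⁻¹) ∧ (z' : G) = g * z * g⁻¹ ∧
        w = msym K z' (KM.map S φ x) - msym H z x}

/-- The abelian group generated by the symbols `[H, z, x]` with the above relations. -/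
def ZM : Type := FreeAbelianGroup (MSym S G) ⧸ AddSubgroup.closure (MRel S G)

instance : AddCommGroup (ZM S G) :=
  QuotientAddGroup.Quotient.addCommGroup (AddSubgroup.closure (MRel S G))

variable {S G} in
/-- The symbol `[H, z, x]`. -/
def ZM.of (H : FinSub G) (z : Cz H.1) (x : KM S H.1) : ZM S G := QuotientAddGroup.mk (msym H z x)

/-- The subgroup generated by the symbols `[C, z, x]`, where `C` is cyclic and all homomorphisms
from the centralizer of `C` to the integers vanish at `z`. -/
def DvM : AddSubgroup (ZM S G) :=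
  AddSubgroup.closure {y | ∃ (H : FinSub G) (z : Cz H.1) (x : KM S H.1),
    IsCyclic H.1 ∧ (∀ χ : Cz H.1 →* Multiplicative ℤ, χ z = 1) ∧ y = ZM.of H z x}

variable {S G} in
/-- `β [H, z, [e]_i] = [1 - e + e z]_i`. -/
def IsTwistM (β : ZM S G →+ KO S G) : Prop :=
  ∀ (i : S.I) (H : FinSub G) (z : Cz H.1) (n : ℕ) (e : IdMat (MonoidAlgebra (S.K i) H.1) n),
    ∃ M : (Matrix (Fin n) (Fin n) (MonoidAlgebra (S.K i) G))ˣ,
      (M : Matrix (Fin n) (Fin n) (MonoidAlgebra (S.K i) G)) = twMat H z e ∧
        β (ZM.of H z (KM.at i (GK0.mk e))) = KO.at i (GK1.mk M)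

variable {S G} in
/-- If `β(ξ)` has finite order, then a positive multiple of `ξ` is in `T`. -/
def KerInM (β : ZM S G →+ KO S G) (T : AddSubgroup (ZM S G)) : Prop :=
  ∀ (ξ : ZM S G) (n : ℕ), 0 < n → n • β ξ = 0 → ∃ l : ℕ, 0 < l ∧ l • ξ ∈ T

variable {S G} in
/-- The map `β` is injective up to torsion. -/
def RatInjM (β : ZM S G →+ KO S G) : Prop :=
  ∀ (ξ : ZM S G) (n : ℕ), 0 < n → n • β ξ = 0 → ∃ l : ℕ, 0 < l ∧ l • ξ = 0

/-- If `C` is a finite cyclic subgroup, then every element of the centralizer of `C` at which all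
homomorphisms to the integers vanish has a positive power in the commutator subgroup of the
centralizer. -/
def ZSep : Prop :=
  ∀ (C : FinSub G) (z : Cz C.1), IsCyclic C.1 →
    (∀ χ : Cz C.1 →* Multiplicative ℤ, χ z = 1) → ∃ m, 0 < m ∧ z ^ m ∈ commutator (Cz C.1)

end sym

end

end Pool.Agent.T9h42.KD
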