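import Pool.Agent.T9h42.DD.DescB
import Pool.Agent.T9h42.GZ.MainZ
import Pool.Agent.T9h42.DD.StmD

/-!
# The local statement for general coefficients
-/

set_option linter.unusedSectionVars false

namespace Pool.Agent.T9h42.Q

open MonoidAlgebra H970SH H842 Pool.Agent.Y69 Pool.Agent.Y69.StepC Pool.Agent.Y778.NK
  Pool.Agent.T9h42

noncomputable section

/-- a natural number all of whose prime divisors are units is a unit -/
theorem unit_of_primes {A : Type} [CommRing A] {n : ℕ} (hn : 0 < n)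
    (h : ∀ p : ℕ, p.Prime → p ∣ n → IsUnit ((p : ℕ) : A)) : IsUnit ((n : ℕ) : A) := by
  induction n using Nat.recOnMul with
  | zero => exact absurd hn (lt_irrefl 0)
  | one => rw [Nat.cast_one]; exact isUnit_one
  | prime p hp => exact h p hp dvd_rfl
  | mul a b ha hb =>
    rw [Nat.cast_mul]
    have ha0 : 0 < a := Nat.pos_of_mul_pos_right hn |> fun _ => Nat.pos_of_ne_zero (by
      rintro rfl
      rw [zero_mul] at hn
      exact lt_irrefl 0 hn)
    have hb0 : 0 < b := Nat.pos_of_ne_zero (by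
      rintro rfl
      rw [mul_zero] at hn
      exact lt_irrefl 0 hn)
    exact (ha ha0 fun p hp hd => h p hp (hd.mul_right b)).mul
      (hb hb0 fun p hp hd => h p hp (hd.mul_left a))

section sing

variable {A K : Type} [CommRing A] [Field K] [CharZero K] {G : Type} [Group G]

theorem tf_inj (ι : A →+* K) (hinj : Function.Injective ι) (n : ℕ) (x : A) (hn : 0 < n)
    (h : n • x = 0) : x = 0 := by
  apply hinj
  have h1 := congrArg ι h
  rw [map_nsmul, map_zero, nsmul_eq_mul] at h1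
  rw [map_zero]
  exact (mul_eq_zero.1 h1).resolve_left (by exact_mod_cast hn.ne')

/-- vanishing at the elements of non-invertible order -/
theorem Tr_sing' (ι : A →+* K) (hinj : Function.Injective ι)
    (hsep : ∀ p : ℕ, p.Prime → ¬ IsUnit ((p : ℕ) : A) → ∀ x : A, (∀ k : ℕ, ∃ y, x = p ^ k • y) →
      x = 0) {c : G} {χ : G → ℤ} (hχ : AddOnC c χ) (hc : 0 < orderOf c)
    (hs : ¬ IsUnit ((orderOf c : ℕ) : A)) (x : K1 (MonoidAlgebra A G)) : Tr A hχ x = 0 := by
  obtain ⟨p, hp, hpc, hpu⟩ : ∃ p : ℕ, p.Prime ∧ p ∣ orderOf c ∧ ¬ IsUnit ((p : ℕ) : A) := by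
    by_contra hcon
    push Not at hcon
    exact hs (unit_of_primes hc hcon)
  refine Dn_sing (p := p) _ _ (tf_inj ι hinj) hp (hsep p hp hpu) ?_ x
  intro x y hxy
  unfold cocf
  rw [if_neg]
  intro h
  apply hxy
  obtain ⟨t, ht⟩ := isConj_iff.1 h
  have : orderOf (t * c * t⁻¹) = orderOf c := (MulAut.conj t).orderOf_eq c
  rw [← ht, this]
  exact ⟨hc, hpc⟩

theorem int_surj' (ι : A →+* K) (hinj : Function.Injective ι)
    (hcl : ∀ x : K, ι.IsIntegralElem x → ∃ a, ι a = x) (D : Type) [CommGroup D] [Finite D]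
    (hD : IsUnit ((Nat.card D : ℕ) : A)) (v : K0 (MonoidAlgebra K D)) :
    ∃ w : K0 (MonoidAlgebra A D), K0.map (mapRingHom D ι) w = v := by
  have h1 := Pool.Agent.Y350.NK.gen K D v
  have h2 : v ∈ (K0.map (mapRingHom D ι)).range := by
    refine (AddSubgroup.closure_le _).2 ?_ h1
    rintro _ ⟨e, he, rfl⟩
    let _ : Algebra A K := ι.toAlgebra
    obtain ⟨e', he', h3⟩ := Pool.Agent.T9h42.DD.idem_lift (A := A) (K := K) hinj hcl hD e he
    refine ⟨cl1 e' he', ?_⟩
    rw [map_cl1]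
    congr 1
  exact h2

/-- **The local statement.** -/
theorem loc_gen (ι : A →+* K) (hinj : Function.Injective ι)
    (hcl : ∀ x : K, ι.IsIntegralElem x → ∃ a, ι a = x) (y : ZK K G)
    (h0 : ∀ (c : G) (χ : G → ℤ) (hχ : AddOnC c χ), 0 < orderOf c →
      ¬ IsUnit ((orderOf c : ℕ) : A) → Tr K hχ (btG K G y) = 0) :
    ∃ (m : ℕ) (w : ZK A G), 0 < m ∧ m • y - ccZ ι G w ∈ DvG K G ℤ := by
  classical
  obtain ⟨m, hm, N, X, hX⟩ := ZK_mem y
  have hsum : ∀ {B : Type} [AddCommGroup B] (f : Fin N → B),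
      ∑ i ∈ Finset.univ.filter (fun i => ¬ IsUnit ((Nat.card (X i).C : ℕ) : A)), f i +
        ∑ i ∈ Finset.univ.filter (fun i => ¬ ¬ IsUnit ((Nat.card (X i).C : ℕ) : A)), f i =
          ∑ i, f i := fun f =>
    Finset.sum_filter_add_sum_filter_not Finset.univ _ f
  have h1 : ∀ c : G, 0 < orderOf c → ∀ χ : G → ℤ, AddOnC c χ →
      ∑ i ∈ Finset.univ.filter (fun i => ¬ IsUnit ((Nat.card (X i).C : ℕ) : A)),
        (X i).trc (dF K) c (fun g => (dF K).j (χ g)) = 0 := by
    intro c hc χ hχ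
    by_cases hpc : ¬ IsUnit ((orderOf c : ℕ) : A)
    · have h2 := hsum (fun i => (X i).trc (dF K) c (fun g => (dF K).j (χ g)))
      have h3 : ∑ i ∈ Finset.univ.filter (fun i => ¬ ¬ IsUnit ((Nat.card (X i).C : ℕ) : A)),
          (X i).trc (dF K) c (fun g => (dF K).j (χ g)) = 0 := by
        refine Finset.sum_eq_zero fun i hi => ?_
        by_contra h4
        have h5 := ZObj.trc_ord h4
        exact (Finset.mem_filter.1 hi).2 (h5 ▸ hpc)
      rw [h3, add_zero] at h2
      rw [h2, ← tr_sum Finset.univ X hχ, ← hX, map_nsmul, map_nsmul, h0 c χ hχ hc hpc, smul_zero]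
    · refine Finset.sum_eq_zero fun i hi => ?_
      by_contra h4
      have h5 := ZObj.trc_ord h4
      exact hpc (h5 ▸ (Finset.mem_filter.1 hi).2)
  obtain ⟨n, hn, hd⟩ := global_dv (dF K) tfF
    (Finset.univ.filter (fun i => ¬ IsUnit ((Nat.card (X i).C : ℕ) : A))) X h1
  have h2 : ∀ i, ¬ ¬ IsUnit ((Nat.card (X i).C : ℕ) : A) → ∃ w : ZK A G,
      ccZ ι G w = (X i).val (dF K) tfF := by
    intro i hi
    obtain ⟨w, hw⟩ := int_surj' ι hinj hcl (X i).C (not_not.1 hi)
      (gq (dF K) (X i).C (kap (ma_tf tfF) (X i).u) : K0 (MonoidAlgebra K (X i).C))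
    refine ⟨sz A (X i).φ (X i).z (X i).hz w, ?_⟩
    rw [ccZ_sz]
    exact congrArg (sz K (X i).φ (X i).z (X i).hz) hw
  choose! w hw using h2
  refine ⟨n * m, n • ∑ i ∈ Finset.univ.filter (fun i => ¬ ¬ IsUnit ((Nat.card (X i).C : ℕ) : A)),
    w i, Nat.mul_pos hn hm, ?_⟩
  rw [mul_smul, hX, map_nsmul, map_sum, Finset.sum_congr rfl fun i hi =>
    hw i (Finset.mem_filter.1 hi).2, ← smul_sub, ← hsum, add_sub_cancel_right]
  exact hd

end sing

end

end Pool.Agent.T9h42.Q
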