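import Pool.Agent.T9h42.DD.MainD

/-!
# The properties of the completions of a Dedekind domain
-/

namespace Pool.Agent.T9h42.KD

open IsDedekindDomain IsDedekindDomain.HeightOneSpectrum WithZero

variable {R F : Type} [CommRing R] [IsDedekindDomain R] [Field F] [Algebra R F]
  [IsFractionRing R F]

theorem sep_int (v : HeightOneSpectrum R) (p : ℕ)
    (hu : ¬ IsUnit ((p : ℕ) : v.adicCompletionIntegers F)) (x : v.adicCompletionIntegers F)
    (h : ∀ k : ℕ, ∃ y, x = p ^ k • y) : x = 0 := by
  have hI := adicCompletionIntegers.integers F v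
  have h1 : Valued.v ((p : ℕ) : v.adicCompletion F) < 1 := by
    have h2 : Valued.v (algebraMap (v.adicCompletionIntegers F) (v.adicCompletion F)
        ((p : ℕ) : v.adicCompletionIntegers F)) ≠ 1 := fun h3 =>
      hu (hI.isUnit_iff_valuation_eq_one.2 h3)
    rw [map_natCast] at h2
    refine lt_of_le_of_ne ?_ h2
    have h4 := ((p : ℕ) : v.adicCompletionIntegers F).2
    rw [mem_adicCompletionIntegers] at h4
    exact_mod_cast h4
  by_contra hx
  have hx0 : Valued.v (x : v.adicCompletion F) ≠ 0 := by
    rw [Valuation.ne_zero_iff]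
    exact fun h2 => hx (Subtype.ext h2)
  have h2 : ∀ k : ℕ, Valued.v (x : v.adicCompletion F) ≤
      (Valued.v ((p : ℕ) : v.adicCompletion F)) ^ k := by
    intro k
    obtain ⟨y, hy⟩ := h k
    have h3 : (x : v.adicCompletion F) = ((p : ℕ) : v.adicCompletion F) ^ k *
        (y : v.adicCompletion F) := by
      rw [hy, nsmul_eq_mul]
      push_cast
      rfl
    rw [h3, map_mul, map_pow]
    exact mul_le_of_le_one_right' y.2
  have hp0 : Valued.v ((p : ℕ) : v.adicCompletion F) ≠ 0 := by
    intro h3
    have h4 := h2 1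
    rw [pow_one, h3] at h4
    exact hx0 (le_antisymm h4 zero_le')
  have h5 : 1 < (Valued.v ((p : ℕ) : v.adicCompletion F))⁻¹ :=
    (one_lt_inv₀ (zero_lt_iff.2 hp0)).2 h1
  obtain ⟨n, hn⟩ := MulArchimedean.arch (Valued.v (x : v.adicCompletion F))⁻¹ h5
  have h6 := inv_anti₀ (zero_lt_iff.2 hx0) (h2 (n + 1))
  rw [← inv_pow] at h6
  exact absurd hn (not_le.2 (lt_of_lt_of_le (pow_lt_pow_right₀ h5 (Nat.lt_succ_self n)) h6))

theorem ded_good : (ded R F).Good where
  inj := fun v => Subtype.val_injective
  fin := fun x => by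
    refine (HeightOneSpectrum.Support.finite R x).subset ?_
    intro v hv
    show 1 < v.valuation F x
    by_contra hc
    apply hv
    have h1 : Valued.v (algebraMap F (v.adicCompletion F) x) = v.valuation F x :=
      valuedAdicCompletion_eq_valuation' v x
    exact ⟨⟨algebraMap F (v.adicCompletion F) x, (mem_adicCompletionIntegers R F v).2 (by
      rw [h1]; exact not_lt.1 hc)⟩, rfl⟩
  cl := fun v x hx => by
    have h1 := (adicCompletionIntegers.integers F v).mem_of_integral (x := x) hx
    exact ⟨⟨x, h1⟩, rfl⟩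
  sep := fun v p _ hu x h => sep_int v p hu x h

end Pool.Agent.T9h42.KD
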